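import Pool.Agent.H9.Geproci.Defs

/-!
# The ideal of a union of collinear points
-/

namespace Pool.Agent.H9.Geproci

open MvPolynomial

/-- `th y` restricts a polynomial to the line through the origin spanned by `y`. -/
noncomputable def th {n : ℕ} (y : Fin n → ℂ) : MvPolynomial (Fin n) ℂ →ₐ[ℂ] Polynomial ℂ :=
  aeval (fun i => Polynomial.C (y i) * Polynomial.X)

theorem eval_th {n : ℕ} (y : Fin n → ℂ) (g : MvPolynomial (Fin n) ℂ) (t : ℂ) :
    (th y g).eval t = eval (t • y) g := by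
  have h : ((Polynomial.evalRingHom t).comp (th y : MvPolynomial (Fin n) ℂ →+* Polynomial ℂ))
      = (eval (t • y) : MvPolynomial (Fin n) ℂ →+* ℂ) := by
    apply ringHom_ext
    · intro r
      simp [th]
    · intro i
      simp only [th, RingHom.comp_apply, RingHom.coe_coe, aeval_X, Polynomial.coe_evalRingHom,
        Polynomial.eval_mul, Polynomial.eval_C, Polynomial.eval_X, eval_X, Pi.smul_apply,
        smul_eq_mul]
      ring
  exact congrArg (fun F : MvPolynomial (Fin n) ℂ →+* ℂ => F g) h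

theorem th_eq_zero {n : ℕ} (y : Fin n → ℂ) (g : MvPolynomial (Fin n) ℂ) :
    th y g = 0 ↔ ∀ t : ℂ, eval (t • y) g = 0 := by
  constructor
  · intro h t
    rw [← eval_th, h, Polynomial.eval_zero]
  · intro h
    apply Polynomial.funext
    intro t
    rw [eval_th, h t, Polynomial.eval_zero]

theorem vanishes_iff {n m : ℕ} (y : Fin m → Fin n → ℂ) (g : MvPolynomial (Fin n) ℂ) :
    Vanishes y g ↔ ∀ i, th (y i) g = 0 := by
  have e : ∀ i (t : ℂ), (fun k => t * y i k) = t • y i := fun i t => rfl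
  constructor
  · intro h i
    rw [th_eq_zero]
    intro t
    rw [← e]
    exact h i t
  · intro h i t
    rw [e]
    exact (th_eq_zero _ g).1 (h i) t

/-- The ideal membership for one line through the origin in the plane. -/
theorem dvd_of_th (s : ℂ) (h : MvPolynomial (Fin 2) ℂ) (hh : th ![1, s] h = 0) :
    (X 1 - C s * X 0) ∣ h := by
  set l : MvPolynomial (Fin 2) ℂ := X 1 - C s * X 0 with hl
  let I : Ideal (MvPolynomial (Fin 2) ℂ) := Ideal.span {l}
  let psi : Polynomial ℂ →ₐ[ℂ] MvPolynomial (Fin 2) ℂ := Polynomial.aeval (X 0)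
  have key : (Ideal.Quotient.mkₐ ℂ I).comp (psi.comp (th ![1, s])) = Ideal.Quotient.mkₐ ℂ I := by
    apply algHom_ext
    intro i
    rw [AlgHom.comp_apply, AlgHom.comp_apply, Ideal.Quotient.mkₐ_eq_mk, Ideal.Quotient.eq,
      Ideal.mem_span_singleton]
    fin_cases i
    · simp [th, psi]
    · simp only [th, psi, hl, Fin.mk_one, aeval_X, Matrix.cons_val_one, Matrix.cons_val_zero,
        Polynomial.aeval_mul, Polynomial.aeval_C, Polynomial.aeval_X]
      exact ⟨-1, by simp [algebraMap_eq]⟩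
  have h2 := congrArg (fun F : MvPolynomial (Fin 2) ℂ →ₐ[ℂ] _ => F h) key
  simp only [AlgHom.comp_apply, hh, map_zero] at h2
  rw [Ideal.Quotient.mkₐ_eq_mk] at h2
  exact Ideal.mem_span_singleton.1 (Ideal.Quotient.eq_zero_iff_mem.1 h2.symm)

/-- Several lines in the plane. -/
theorem prod_dvd_of_th {m : ℕ} (s : Fin m → ℂ) (hs : Function.Injective s)
    (h : MvPolynomial (Fin 2) ℂ) (hh : ∀ k, th ![1, s k] h = 0) :
    (∏ k, (X 1 - C (s k) * X 0)) ∣ h := by
  induction m generalizing h with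
  | zero => simp
  | succ m ih =>
    rw [Fin.prod_univ_succ]
    obtain ⟨h', rfl⟩ := dvd_of_th (s 0) h (hh 0)
    apply mul_dvd_mul_left
    apply ih (fun k => s k.succ)
    · intro a b hab
      exact Fin.succ_injective _ (hs hab)
    · intro k
      have h1 := hh k.succ
      rw [map_mul] at h1
      rcases mul_eq_zero.1 h1 with h2 | h2
      · exfalso
        have h3 : th ![1, s k.succ] (X 1 - C (s 0) * X 0)
            = Polynomial.C (s k.succ - s 0) * Polynomial.X := by
          simp [th]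
          ring
        rw [h3] at h2
        have h4 : s k.succ - s 0 ≠ 0 := by
          intro h5
          exact Fin.succ_ne_zero k (hs (sub_eq_zero.1 h5))
        rcases mul_eq_zero.1 h2 with h5 | h5
        · exact h4 (Polynomial.C_eq_zero.1 h5)
        · exact Polynomial.X_ne_zero h5
      · exact h2

/-- The restriction of polynomials to the plane spanned by `α` and `β`. -/
noncomputable def rho (α β : Fin 3 → ℂ) : MvPolynomial (Fin 3) ℂ →ₐ[ℂ] MvPolynomial (Fin 2) ℂ :=
  aeval (fun i => C (α i) * X 0 + C (β i) * X 1)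

theorem th_rho (α β : Fin 3 → ℂ) (s : ℂ) (g : MvPolynomial (Fin 3) ℂ) :
    th ![1, s] (rho α β g) = th (fun i => α i + s * β i) g := by
  have h : (th ![1, s]).comp (rho α β) = th (fun i => α i + s * β i) := by
    apply algHom_ext
    intro i
    rw [AlgHom.comp_apply]
    simp [th, rho]
    ring
  exact congrArg (fun F : MvPolynomial (Fin 3) ℂ →ₐ[ℂ] _ => F g) h

theorem dvd_sub_rho (α β γ : Fin 3 → ℂ) (S T l : MvPolynomial (Fin 3) ℂ)
    (hX : ∀ i, X i = C (α i) * S + C (β i) * T + C (γ i) * l) (g : MvPolynomial (Fin 3) ℂ) :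
    l ∣ g - aeval ![S, T] (rho α β g) := by
  let I : Ideal (MvPolynomial (Fin 3) ℂ) := Ideal.span {l}
  let psi : MvPolynomial (Fin 2) ℂ →ₐ[ℂ] MvPolynomial (Fin 3) ℂ := aeval ![S, T]
  have key : (Ideal.Quotient.mkₐ ℂ I).comp (psi.comp (rho α β)) = Ideal.Quotient.mkₐ ℂ I := by
    apply algHom_ext
    intro i
    rw [AlgHom.comp_apply, AlgHom.comp_apply, Ideal.Quotient.mkₐ_eq_mk, Ideal.Quotient.eq,
      Ideal.mem_span_singleton]
    refine ⟨- C (γ i), ?_⟩
    have h1 : psi (rho α β (X i)) = C (α i) * S + C (β i) * T := by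
      simp [psi, rho, algebraMap_eq]
    rw [h1, hX i]
    ring
  have h2 := congrArg (fun F : MvPolynomial (Fin 3) ℂ →ₐ[ℂ] _ => F g) key
  simp only [AlgHom.comp_apply] at h2
  rw [Ideal.Quotient.mkₐ_eq_mk] at h2
  exact Ideal.mem_span_singleton.1 (Ideal.Quotient.eq.1 h2.symm)

/-- The points on one line. -/
theorem line_lemma {m : ℕ} (s : Fin m → ℂ) (hs : Function.Injective s) (α β γ : Fin 3 → ℂ)
    (S T l B : MvPolynomial (Fin 3) ℂ)
    (hX : ∀ i, X i = C (α i) * S + C (β i) * T + C (γ i) * l) (κ : ℂ) (hκ : κ ≠ 0)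
    (hB : rho α β B = C κ * ∏ k, (X 1 - C (s k) * X 0))
    (g : MvPolynomial (Fin 3) ℂ) (hg : ∀ k, th (fun i => α i + s k * β i) g = 0) :
    ∃ H G, g = B * H + l * G := by
  have h1 : (∏ k, (X 1 - C (s k) * X 0)) ∣ rho α β g := by
    apply prod_dvd_of_th s hs
    intro k
    rw [th_rho]
    exact hg k
  obtain ⟨q, hq⟩ := h1
  have h2 : rho α β g = rho α β B * (C κ⁻¹ * q) := by
    rw [hq, hB]
    have h3 : (C κ : MvPolynomial (Fin 2) ℂ) * C κ⁻¹ = 1 := by
      rw [← C_mul, mul_inv_cancel₀ hκ, C_1]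
    linear_combination (-(∏ k, (X 1 - C (s k) * X 0)) * q) * h3
  obtain ⟨u, hu⟩ := dvd_sub_rho α β γ S T l hX g
  obtain ⟨v, hv⟩ := dvd_sub_rho α β γ S T l hX B
  rw [h2, map_mul] at hu
  refine ⟨aeval ![S, T] (C κ⁻¹ * q), u - v * aeval ![S, T] (C κ⁻¹ * q), ?_⟩
  linear_combination hu - (aeval ![S, T] (C κ⁻¹ * q)) * hv

end Pool.Agent.H9.Geproci
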