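import Pool.Agent.H9.Geproci.Lines

/-!
# The projected points are a complete intersection
-/

namespace Pool.Agent.H9.Geproci

open MvPolynomial

theorem chain {N m : ℕ} (l : Fin N → MvPolynomial (Fin 3) ℂ) (B : MvPolynomial (Fin 3) ℂ)
    (y : Fin N → Fin m → (Fin 3 → ℂ))
    (h1 : ∀ j g, (∀ k, th (y j k) g = 0) → ∃ H G, g = B * H + l j * G)
    (h2 : ∀ j k, th (y j k) B = 0)
    (h3 : ∀ i j k, i ≠ j → th (y j k) (l i) ≠ 0)
    (g : MvPolynomial (Fin 3) ℂ) (hg : ∀ j k, th (y j k) g = 0) :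
    ∃ H G, g = B * H + (∏ j, l j) * G := by
  induction N generalizing g with
  | zero => exact ⟨0, g, by simp⟩
  | succ N ih =>
    obtain ⟨H, G, hHG⟩ := h1 0 g (hg 0)
    obtain ⟨H', G', h'⟩ := ih (fun j => l j.succ) (fun j => y j.succ) (fun j => h1 j.succ)
      (fun j => h2 j.succ) (fun i j k hij => h3 i.succ j.succ k (by simpa using hij)) G (by
        intro j k
        have h5 := hg j.succ k
        rw [hHG, map_add, map_mul, map_mul, h2, zero_mul, zero_add] at h5
        rcases mul_eq_zero.1 h5 with h6 | h6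
        · exact absurd h6 (h3 0 j.succ k (Fin.succ_ne_zero j).symm)
        · exact h6)
    refine ⟨H + l 0 * H', G', ?_⟩
    rw [Fin.prod_univ_succ, hHG]
    linear_combination (l 0) * h'

theorem chain_reg {N : ℕ} (l : Fin N → MvPolynomial (Fin 3) ℂ) (B : MvPolynomial (Fin 3) ℂ)
    (h0 : ∀ j, l j ≠ 0) (h4 : ∀ j g, l j ∣ B * g → l j ∣ g)
    (g : MvPolynomial (Fin 3) ℂ) (hg : (∏ j, l j) ∣ B * g) : (∏ j, l j) ∣ g := by
  induction N generalizing g with
  | zero => simp
  | succ N ih =>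
    rw [Fin.prod_univ_succ] at hg ⊢
    obtain ⟨g', rfl⟩ := h4 0 g (dvd_trans (dvd_mul_right _ _) hg)
    apply mul_dvd_mul_left
    apply ih (fun j => l j.succ) (fun j => h0 j.succ) (fun j => h4 j.succ)
    have : B * (l 0 * g') = l 0 * (B * g') := by ring
    rw [this] at hg
    exact (mul_dvd_mul_iff_left (h0 0)).1 hg

/-- The general position conditions. -/
structure Good (w lam : ℂ) (p : Fin 4 → ℂ) : Prop where
  p0 : p 0 ≠ 0
  A : ∀ j, Aj w p j ≠ 0
  k1 : ∀ j, kap w 1 p j ≠ 0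
  kl : ∀ j, kap w (lam ^ 3) p j ≠ 0
  l : ∀ i j k, i ≠ j → eval (yv w lam p j k) (ell w p i) ≠ 0

theorem th_linear (y : Fin 3 → ℂ) (c0 c1 c2 : ℂ) :
    th y (C c0 * X 0 + C c1 * X 1 + C c2 * X 2)
      = Polynomial.C (c0 * y 0 + c1 * y 1 + c2 * y 2) * Polynomial.X := by
  have h : ∀ z : ℂ, th y (C z) = Polynomial.C z := fun z => AlgHom.commutes (th y) z
  rw [map_add, map_add, map_mul, map_mul, map_mul, h, h, h]
  simp only [th, aeval_X, map_add, map_mul]
  ring

theorem ell_eq (w : ℂ) (p : Fin 4 → ℂ) (j : Fin 4) :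
    ell w p j = C (a1 j * Bj w p j) * X 0 + C (-(Aj w p j * b2 w j)) * X 1
      + C (Aj w p j * b1 j) * X 2 := by
  unfold ell
  simp only [C_mul, C_neg]
  ring

theorem eval_ell (w : ℂ) (p : Fin 4 → ℂ) (j : Fin 4) (y : Fin 3 → ℂ) :
    eval y (ell w p j) = a1 j * Bj w p j * y 0 + -(Aj w p j * b2 w j) * y 1
      + Aj w p j * b1 j * y 2 := by
  rw [ell_eq]
  simp

theorem th_ell (w : ℂ) (p : Fin 4 → ℂ) (j : Fin 4) (y : Fin 3 → ℂ) :
    th y (ell w p j) = Polynomial.C (eval y (ell w p j)) * Polynomial.X := by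
  rw [eval_ell, ell_eq, th_linear]

theorem th_ell_self (w lam : ℂ) (p : Fin 4 → ℂ) (j : Fin 4) (k : Fin 6) :
    th (yv w lam p j k) (ell w p j) = 0 := by
  rw [th_ell, eval_ell]
  have : a1 j * Bj w p j * yv w lam p j k 0 + -(Aj w p j * b2 w j) * yv w lam p j k 1
      + Aj w p j * b1 j * yv w lam p j k 2 = 0 := by
    simp only [yv, al, be, Aj, Bj, Matrix.cons_val_zero, Matrix.cons_val_one, Matrix.cons_val]
    ring
  rw [this, map_zero, zero_mul]

theorem rho_ell_self (w : ℂ) (p : Fin 4 → ℂ) (j : Fin 4) :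
    rho (al w p j) (be w p j) (ell w p j) = 0 := by
  have hC : ∀ z : ℂ, rho (al w p j) (be w p j) (C z) = C z := by
    intro z
    exact AlgHom.commutes (rho (al w p j) (be w p j)) z
  have hXr : ∀ i, rho (al w p j) (be w p j) (X i) = C (al w p j i) * X 0 + C (be w p j i) * X 1 := by
    intro i
    simp only [rho, aeval_X]
  rw [ell_eq]
  simp only [map_add, map_mul, map_neg, hC, hXr]
  simp only [al, be, Aj, Bj, Matrix.cons_val_zero, Matrix.cons_val_one,
    Matrix.cons_val, map_mul, map_sub, map_neg, map_zero]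
  ring

theorem sv_inj (w lam : ℂ) (hw : w ^ 2 + w + 1 = 0) (h0 : lam ≠ 0) (h1 : lam ^ 3 ≠ 1) :
    Function.Injective (sv w lam) := by
  have hw3 : w ^ 3 = 1 := by linear_combination (w - 1) * hw
  have hw1 : w ≠ 1 := by
    rintro rfl
    norm_num at hw
  have hw0 : w ≠ 0 := by
    rintro rfl
    norm_num at hw
  have hcube : ∀ a b : ℂ, a ^ 3 = 1 → lam * a = b → b ^ 3 ≠ 1 := by
    intro a b ha hab hb
    apply h1
    rw [← hab, mul_pow, ha, mul_one] at hb
    exact hb
  have c1 : (1 : ℂ) ^ 3 = 1 := by norm_num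
  have c2 : w ^ 3 = 1 := hw3
  have c3 : (w ^ 2) ^ 3 = 1 := by rw [← pow_mul, mul_comm, pow_mul, hw3, one_pow]
  have d1 : (1 : ℂ) ≠ w := fun h => hw1 h.symm
  have d2 : w ≠ w ^ 2 := by
    intro h
    have : w * (w - 1) = 0 := by linear_combination -h
    rcases mul_eq_zero.1 this with h | h
    · exact hw0 h
    · exact hw1 (sub_eq_zero.1 h)
  have d3 : (1 : ℂ) ≠ w ^ 2 := by
    intro h
    apply d2
    have : w * 1 = w * w ^ 2 := by rw [← h]
    rw [← pow_succ', hw3, mul_one] at this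
    rw [← h, this]
  have key : ∀ a b : Fin 6, a < b → sv w lam a ≠ sv w lam b := by
    have s0 : sv w lam 0 = 1 := rfl
    have s1 : sv w lam 1 = w := rfl
    have s2 : sv w lam 2 = w ^ 2 := rfl
    have s3 : sv w lam 3 = lam * 1 := (mul_one _).symm
    have s4 : sv w lam 4 = lam * w := rfl
    have s5 : sv w lam 5 = lam * w ^ 2 := rfl
    intro a b hab
    fin_cases a <;> fin_cases b <;>
      simp only [Fin.zero_eta, Fin.mk_one, Fin.reduceFinMk, s0, s1, s2, s3, s4, s5] at * <;>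
      first
      | exact absurd hab (by decide)
      | exact d1
      | exact d2
      | exact d3
      | exact fun h => hcube _ _ c1 h.symm c1
      | exact fun h => hcube _ _ c1 h.symm c2
      | exact fun h => hcube _ _ c1 h.symm c3
      | exact fun h => hcube _ _ c2 h.symm c1
      | exact fun h => hcube _ _ c2 h.symm c2
      | exact fun h => hcube _ _ c2 h.symm c3
      | exact fun h => hcube _ _ c3 h.symm c1
      | exact fun h => hcube _ _ c3 h.symm c2
      | exact fun h => hcube _ _ c3 h.symm c3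
      | exact fun h => d1 (mul_left_cancel₀ h0 h)
      | exact fun h => d2 (mul_left_cancel₀ h0 h)
      | exact fun h => d3 (mul_left_cancel₀ h0 h)
  intro a b hab
  rcases lt_trichotomy a b with h | h | h
  · exact absurd hab (key a b h)
  · exact h
  · exact absurd hab.symm (key b a h)

theorem hom_linear (c0 c1 c2 : ℂ) :
    (C c0 * X 0 + C c1 * X 1 + C c2 * X 2 : MvPolynomial (Fin 3) ℂ).IsHomogeneous 1 := by
  apply IsHomogeneous.add
  · apply IsHomogeneous.add
    · exact isHomogeneous_C_mul_X _ _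
    · exact isHomogeneous_C_mul_X _ _
  · exact isHomogeneous_C_mul_X _ _

theorem hom_ell (w : ℂ) (p : Fin 4 → ℂ) (j : Fin 4) : (ell w p j).IsHomogeneous 1 := by
  rw [ell_eq]
  exact hom_linear _ _ _

theorem hom_cub (w c : ℂ) (p : Fin 4 → ℂ) : (cub w c p).IsHomogeneous 3 := by
  unfold cub Fc
  simp only [Matrix.cons_val_zero, Matrix.cons_val_one, Matrix.cons_val]
  have L : ∀ g : MvPolynomial (Fin 3) ℂ, (∃ c0 c1 c2 : ℂ, g = C c0 * X 0 + C c1 * X 1 + C c2 * X 2) →
      g.IsHomogeneous 1 := by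
    rintro g ⟨c0, c1, c2, rfl⟩
    exact hom_linear _ _ _
  have e1 : (0 * C (p 1) - X 0 * C (p 0) : MvPolynomial (Fin 3) ℂ).IsHomogeneous 1 :=
    L _ ⟨-p 0, 0, 0, by simp only [C_neg, C_0]; ring⟩
  have e2 : (X 0 * C (p 2) - C (p 1) * X 1 : MvPolynomial (Fin 3) ℂ).IsHomogeneous 1 :=
    L _ ⟨p 2, -p 1, 0, by simp only [C_neg, C_0]; ring⟩
  have e3 : (0 * C (p 3) - C (p 0) * X 2 : MvPolynomial (Fin 3) ℂ).IsHomogeneous 1 :=
    L _ ⟨0, 0, -p 0, by simp only [C_neg, C_0]; ring⟩
  have e4 : (0 * C (p 2) - C (p 0) * X 1 : MvPolynomial (Fin 3) ℂ).IsHomogeneous 1 :=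
    L _ ⟨0, -p 0, 0, by simp only [C_neg, C_0]; ring⟩
  have e5 : (X 0 * C (p 3) - C (p 1) * X 2 : MvPolynomial (Fin 3) ℂ).IsHomogeneous 1 :=
    L _ ⟨p 3, 0, -p 1, by simp only [C_neg, C_0]; ring⟩
  have e6 : (X 1 * C (p 3) - X 2 * C (p 2) : MvPolynomial (Fin 3) ℂ).IsHomogeneous 1 :=
    L _ ⟨0, p 3, -p 2, by simp only [C_neg, C_0]; ring⟩
  have e7 : (3 * ((0 * C (p 3) - C (p 0) * X 2) - (X 0 * C (p 2) - C (p 1) * X 1)) -
      3 * (C w - C w ^ 2) * ((0 * C (p 2) - C (p 0) * X 1) + (X 0 * C (p 3) - C (p 1) * X 2)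
        - (0 * C (p 3) - C (p 0) * X 2) - (X 0 * C (p 2) - C (p 1) * X 1))
        : MvPolynomial (Fin 3) ℂ).IsHomogeneous 1 := by
    apply L
    refine ⟨-3 * p 2 - 3 * (w - w ^ 2) * (p 3 - p 2), 3 * p 1 - 3 * (w - w ^ 2) * (-p 0 + p 1),
      -3 * p 0 - 3 * (w - w ^ 2) * (-p 1 + p 0), ?_⟩
    have h3 : (C (3 : ℂ) : MvPolynomial (Fin 3) ℂ) = 3 := map_ofNat C 3
    simp only [C_sub, C_mul, C_neg, C_add, C_pow, h3]
    ring
  have m1 := (isHomogeneous_C (Fin 3) (c ^ 2)).mul (e1.pow 3)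
  have m2 := (isHomogeneous_C (Fin 3) c).mul (((e2.pow 3).sub (e3.pow 3)).add ((e4.mul e5).mul e7))
  have m3 := e6.pow 3
  rw [C_pow] at m1
  exact (m1.add m2).add m3

theorem const_of_hom (g : MvPolynomial (Fin 3) ℂ) (d : ℕ) (hd : d ≠ 0) (hg : g.IsHomogeneous d) :
    eval (0 : Fin 3 → ℂ) g = 0 := by
  rw [eval_zero, constantCoeff_eq]
  apply hg.coeff_eq_zero
  simpa using hd.symm

/-- `dvd` for the regularity -/
theorem ell_dvd (w lam : ℂ) (hw : w ^ 2 + w + 1 = 0) (p : Fin 4 → ℂ) (hp : Good w lam p)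
    (j : Fin 4) (g : MvPolynomial (Fin 3) ℂ) (h : ell w p j ∣ sext w lam p * g) :
    ell w p j ∣ g := by
  obtain ⟨q, hq⟩ := h
  have h1 := congrArg (rho (al w p j) (be w p j)) hq
  rw [map_mul, map_mul, rho_ell_self, zero_mul, rho_sext w lam hw] at h1
  have h2 : rho (al w p j) (be w p j) g = 0 := by
    rcases mul_eq_zero.1 h1 with h2 | h2
    · exfalso
      rcases mul_eq_zero.1 h2 with h3 | h3
      · rw [C_eq_zero] at h3
        exact mul_ne_zero (mul_ne_zero (pow_ne_zero _ hp.p0) (hp.k1 j)) (hp.kl j) h3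
      · rw [Finset.prod_eq_zero_iff] at h3
        obtain ⟨k, _, hk⟩ := h3
        have h4 := congrArg (eval (![0, 1] : Fin 2 → ℂ)) hk
        simp at h4
    · exact h2
  obtain ⟨u, hu⟩ := dvd_sub_rho (al w p j) (be w p j) (ga w p j) (SS w p j) (TT w p j) (ell w p j)
    (hX w p j hp.p0 (hp.A j)) g
  rw [h2, map_zero, sub_zero] at hu
  exact ⟨u, hu⟩

theorem ell_ne_zero (w lam : ℂ) (p : Fin 4 → ℂ) (hp : Good w lam p) (j : Fin 4) :
    ell w p j ≠ 0 := by
  intro h
  obtain ⟨i, hi⟩ : ∃ i : Fin 4, j ≠ i := ⟨j + 1, by fin_cases j <;> decide⟩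
  have := hp.l j i 0 hi
  rw [h, map_zero] at this
  exact this rfl

theorem th_sext (w lam : ℂ) (hw : w ^ 2 + w + 1 = 0) (p : Fin 4 → ℂ) (j : Fin 4) (k : Fin 6) :
    th (yv w lam p j k) (sext w lam p) = 0 := by
  have h := th_rho (al w p j) (be w p j) (sv w lam k) (sext w lam p)
  have e : (fun i => al w p j i + sv w lam k * be w p j i) = yv w lam p j k := rfl
  rw [e] at h
  rw [← h, rho_sext w lam hw, map_mul, map_prod]
  have : th ![1, sv w lam k] (X 1 - C (sv w lam k) * X 0) = 0 := by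
    have hC : th ![1, sv w lam k] (C (sv w lam k)) = Polynomial.C (sv w lam k) :=
      AlgHom.commutes (th ![1, sv w lam k]) _
    rw [map_sub, map_mul, hC]
    simp [th]
  rw [Finset.prod_eq_zero (Finset.mem_univ k) this, mul_zero]

theorem isCI (w lam : ℂ) (hw : w ^ 2 + w + 1 = 0) (h0 : lam ≠ 0) (h1 : lam ^ 3 ≠ 1)
    (p : Fin 4 → ℂ) (hp : Good w lam p) {m : ℕ} (y : Fin m → Fin 3 → ℂ)
    (σ : Fin m ≃ Fin 4 × Fin 6) (hy : ∀ i, y i = yv w lam p (σ i).1 (σ i).2) :
    IsCompleteIntersection y := by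
  have s0 : spanBelow ![∏ j, ell w p j, sext w lam p] 0 = ⊥ := by
    unfold spanBelow
    rw [Ideal.span_eq_bot]
    rintro x ⟨j, hj, -⟩
    exact absurd hj (Nat.not_lt_zero _)
  have s1 : spanBelow ![∏ j, ell w p j, sext w lam p] 1 = Ideal.span {∏ j, ell w p j} := by
    unfold spanBelow
    congr 1
    ext x
    constructor
    · rintro ⟨j, hj, rfl⟩
      have : j = 0 := by
        apply Fin.ext
        simpa using hj
      rw [this]
      rfl
    · intro hx
      exact ⟨0, by norm_num, hx⟩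
  have s2 : spanBelow ![∏ j, ell w p j, sext w lam p] 2
      = Ideal.span {∏ j, ell w p j, sext w lam p} := by
    unfold spanBelow
    congr 1
    ext x
    constructor
    · rintro ⟨j, hj, rfl⟩
      fin_cases j
      · exact Or.inl rfl
      · exact Or.inr rfl
    · intro hx
      rcases hx with hx | hx
      · exact ⟨0, by norm_num, hx⟩
      · exact ⟨1, by norm_num, hx⟩
  refine ⟨![∏ j, ell w p j, sext w lam p], ?_, ?_, ?_, ?_⟩
  · intro i
    fin_cases i
    · have h := IsHomogeneous.prod Finset.univ (fun j => ell w p j) (fun _ => 1)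
        (fun j _ => hom_ell w p j)
      exact ⟨_, h⟩
    · exact ⟨3 + 3, (hom_cub w 1 p).mul (hom_cub w _ p)⟩
  · intro i g hg
    fin_cases i
    · change _ ∈ spanBelow _ 0 at hg
      change _ ∈ spanBelow _ 0
      rw [s0, Ideal.mem_bot] at hg ⊢
      rcases mul_eq_zero.1 hg with h | h
      · exfalso
        have h' : ∏ j, ell w p j = 0 := h
        rw [Finset.prod_eq_zero_iff] at h'
        obtain ⟨j, _, hj⟩ := h'
        exact ell_ne_zero w lam p hp j hj
      · exact h
    · change _ ∈ spanBelow _ 1 at hg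
      change _ ∈ spanBelow _ 1
      rw [s1, Ideal.mem_span_singleton] at hg ⊢
      exact chain_reg _ _ (ell_ne_zero w lam p hp) (ell_dvd w lam hw p hp) g hg
  · intro h2
    change _ ∈ spanBelow _ 2 at h2
    rw [s2, Ideal.mem_span_pair] at h2
    obtain ⟨u, v, huv⟩ := h2
    have h3 := congrArg (eval (0 : Fin 3 → ℂ)) huv
    have z1 : eval (0 : Fin 3 → ℂ) (∏ j, ell w p j) = 0 := by
      rw [map_prod]
      apply Finset.prod_eq_zero (Finset.mem_univ 0)
      exact const_of_hom _ 1 one_ne_zero (hom_ell w p 0)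
    have z2 : eval (0 : Fin 3 → ℂ) (sext w lam p) = 0 :=
      const_of_hom _ (3 + 3) (by norm_num) ((hom_cub w 1 p).mul (hom_cub w _ p))
    rw [map_add, map_mul, map_mul, z1, z2, mul_zero, mul_zero, add_zero, map_one] at h3
    exact zero_ne_one h3
  · intro g
    change g ∈ spanBelow _ 2 ↔ _
    rw [s2, vanishes_iff]
    constructor
    · intro hg i
      rw [Ideal.mem_span_pair] at hg
      obtain ⟨u, v, rfl⟩ := hg
      rw [hy, map_add, map_mul, map_mul, th_sext w lam hw, mul_zero, add_zero, map_prod,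
        Finset.prod_eq_zero (Finset.mem_univ (σ i).1) (th_ell_self w lam p _ _), mul_zero]
    · intro hg
      obtain ⟨H, G, hHG⟩ := chain (fun j => ell w p j) (sext w lam p)
        (fun j k => yv w lam p j k)
        (fun j g hg => line_lemma (sv w lam) (sv_inj w lam hw h0 h1) (al w p j) (be w p j)
          (ga w p j) (SS w p j) (TT w p j) (ell w p j) (sext w lam p)
          (hX w p j hp.p0 (hp.A j)) _
          (mul_ne_zero (mul_ne_zero (pow_ne_zero 6 hp.p0) (hp.k1 j)) (hp.kl j))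
          (rho_sext w lam hw p j) g hg)
        (th_sext w lam hw p)
        (fun i j k hij => by
          rw [th_ell]
          exact mul_ne_zero (Polynomial.C_ne_zero.2 (hp.l i j k hij)) Polynomial.X_ne_zero)
        g (by
          intro j k
          have h5 := hg (σ.symm (j, k))
          rw [hy, Equiv.apply_symm_apply] at h5
          exact h5)
      rw [hHG]
      apply Ideal.add_mem
      · apply Ideal.mul_mem_right
        apply Ideal.subset_span
        exact Or.inr rfl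
      · apply Ideal.mul_mem_right
        apply Ideal.subset_span
        exact Or.inl rfl

end Pool.Agent.H9.Geproci
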