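import Pool.Agent.H9.Geproci.Alg

/-!
# The cubic cones
-/

namespace Pool.Agent.H9.Geproci

open MvPolynomial

/-- The cubic cone with vertex `p` through the twelve points with parameter `c`. -/
def Fc {A : Type*} [CommRing A] (w c : A) (p x : Fin 4 → A) : A :=
  c ^ 2 * (x 0 * p 1 - x 1 * p 0) ^ 3 +
  c * ((x 1 * p 2 - p 1 * x 2) ^ 3 - (x 0 * p 3 - p 0 * x 3) ^ 3 +
    (x 0 * p 2 - p 0 * x 2) * (x 1 * p 3 - p 1 * x 3) *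
    (3 * ((x 0 * p 3 - p 0 * x 3) - (x 1 * p 2 - p 1 * x 2)) -
      3 * (w - w ^ 2) * ((x 0 * p 2 - p 0 * x 2) + (x 1 * p 3 - p 1 * x 3)
        - (x 0 * p 3 - p 0 * x 3) - (x 1 * p 2 - p 1 * x 2)))) +
  (x 2 * p 3 - x 3 * p 2) ^ 3

theorem map_Fc {A B : Type*} [CommRing A] [CommRing B] (φ : A →+* B) (w c : A) (p x : Fin 4 → A) :
    φ (Fc w c p x) = Fc (φ w) (φ c) (fun i => φ (p i)) (fun i => φ (x i)) := by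
  unfold Fc
  simp only [map_add, map_sub, map_mul, map_pow, map_ofNat]

/-- The four lines: the line number `j` is spanned by `(a1, a2, 0, 0)` and `(0, 0, b1, b2)`. -/
def a1 : Fin 4 → ℂ := ![1, 0, 1, 1]
/-- see `a1` -/
def a2 (w : ℂ) : Fin 4 → ℂ := ![0, 1, 1, -w]
/-- see `a1` -/
def b1 : Fin 4 → ℂ := ![1, 0, 1, 1]
/-- see `a1` -/
def b2 (w : ℂ) : Fin 4 → ℂ := ![0, 1, 1, -w ^ 2]
/-- a complement -/
def d1 : Fin 4 → ℂ := ![0, -1, 0, 0]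
/-- a complement -/
def d2 : Fin 4 → ℂ := ![1, 0, 1, 1]

theorem bd (w : ℂ) (j : Fin 4) : b1 j * d2 j - b2 w j * d1 j = 1 := by
  fin_cases j <;> simp [b1, b2, d1, d2]

theorem ident4 {A : Type*} [CommRing A] (w c p0 p1 p2 p3 s t : A) (hw : w ^ 2 + w + 1 = 0) :
    Fc w c ![p0, p1, p2, p3] ![0, (p0 * (-w) - p1) * s, -p2 * s + p0 * t,
      -p3 * s + p0 * (-w ^ 2) * t]
    = p0 ^ 3 * (c * s ^ 3 - t ^ 3) * (c * (p1 - (-w) * p0) ^ 3 - (p3 - (-w ^ 2) * p2) ^ 3) := by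
  unfold Fc
  simp only [Matrix.cons_val_zero, Matrix.cons_val_one, Matrix.cons_val]
  linear_combination ((-1)*w^4*c*p0^6*t^3 + (3)*w^4*c*p0^3*p1^2*p2*s*t^2 + (-3)*w^4*c*p0^4*p1*p2*s*t^2 + (-3)*w^4*c*p0^4*p1^2*t^3 + (3)*w^4*c*p0^5*p1*t^3 + (1)*w^4*c*p0^3*p2^3*s^3 + (-6)*w^3*c*p0^3*p1*p2*p3*s^2*t + (3)*w^3*c*p0^4*p2*p3*s^2*t + (-6)*w^3*c*p0^3*p1^2*p2*s*t^2 + (3)*w^3*c*p0^3*p1*p2^2*s^2*t + (6)*w^3*c*p0^4*p1*p3*s*t^2 + (-3)*w^3*c*p0^5*p3*s*t^2 + (6)*w^3*c*p0^4*p1^2*t^3 + (-6)*w^3*c*p0^5*p1*t^3 + (1)*w^3*c*p0^6*t^3 + (3)*w^3*c*p0^4*p1*p2*s*t^2 + (-1)*w^3*c*p0^3*p2^3*s^3 + (9)*w^2*c*p0^3*p1*p2*p3*s^2*t + (3)*w^2*c*p0^3*p2*p3^2*s^3 + (-9)*w^2*c*p0^4*p1*p3*s*t^2 + (-3)*w^2*c*p0^4*p3^2*s^2*t + (3)*w^2*c*p0^5*p1*t^3 + (-3)*w^2*c*p0^4*p2*p3*s^2*t + (6)*w^2*c*p0^3*p1^2*p2*s*t^2 + (-3)*w^2*c*p0^3*p1*p2^2*s^2*t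 + (3)*w^2*c*p0^5*p3*s*t^2 + (-6)*w^2*c*p0^4*p1^2*t^3 + (-3)*w*c*p0^3*p1^2*p2*s*t^2 + (3)*w*c*p0^4*p1^2*t^3 + (-3)*w*c*p0^3*p1*p2*p3*s^2*t + (3)*w*c*p0^4*p1*p3*s*t^2 + (-3)*w*c*p0^3*p2*p3^2*s^3 + (3)*w*c*p0^4*p3^2*s^2*t) * hw

/-- The general restriction identity. -/
theorem ident (w c : ℂ) (hw : w ^ 2 + w + 1 = 0) (p : Fin 4 → ℂ) (j : Fin 4)
    {A : Type*} [CommRing A] (φ : ℂ →+* A) (s t : A) :
    Fc (φ w) (φ c) (fun i => φ (p i))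
      ![0, φ (p 0 * a2 w j - a1 j * p 1) * s, φ (-(a1 j * p 2)) * s + φ (p 0 * b1 j) * t,
        φ (-(a1 j * p 3)) * s + φ (p 0 * b2 w j) * t]
    = φ (p 0) ^ 3 * (φ c * s ^ 3 - t ^ 3) *
      φ (c * (a1 j * p 1 - a2 w j * p 0) ^ 3 - (b1 j * p 3 - b2 w j * p 2) ^ 3) := by
  have hw' : φ w ^ 2 + φ w + 1 = 0 := by
    rw [← map_pow, ← map_add, ← map_one φ, ← map_add, hw, map_zero]
  fin_cases j
  · unfold Fc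
    simp [a1, a2, b1, b2]
    ring
  · unfold Fc
    simp [a1, a2, b1, b2]
    ring
  · unfold Fc
    simp [a1, a2, b1, b2]
    ring
  · have h := ident4 (φ w) (φ c) (φ (p 0)) (φ (p 1)) (φ (p 2)) (φ (p 3)) s t hw'
    have e : (fun i => φ (p i)) = ![φ (p 0), φ (p 1), φ (p 2), φ (p 3)] := by
      funext i
      fin_cases i <;> rfl
    rw [e]
    simp only [a1, a2, b1, b2] at *
    simp [map_sub, map_mul, map_pow, map_neg] at *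
    convert h using 2

end Pool.Agent.H9.Geproci
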