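import Mathlib

/-!
# Geproci sets in projective space: definitions
-/

namespace Pool.Agent.H9.Geproci

open MvPolynomial

/-- `v` lists the coordinate vectors of `m` distinct points of `P^n` over the complex numbers. -/
def IsConfig {n m : ℕ} (v : Fin m → Fin (n + 1) → ℂ) : Prop :=
  (∀ i, v i ≠ 0) ∧ ∀ i j (c : ℂ), (∀ k, v i k = c * v j k) → i = j

/-- Projection from the point `p` (with `p 0 ≠ 0`) to the hyperplane `H : x_0 = 0`, which is
identified with `P^{n-1}` by the coordinates `x_1, …, x_n`. The line joining `p` and `x` meets `H`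
in the point `p_0 x - x_0 p`. -/
def proj {n : ℕ} (p x : Fin (n + 1) → ℂ) : Fin n → ℂ := fun i => p 0 * x i.succ - x 0 * p i.succ

/-- The polynomial `g` lies in the homogeneous ideal of the set of points of `P^{n-1}` with
coordinate vectors `y i`: it vanishes on the affine cone over the set. -/
def Vanishes {n m : ℕ} (y : Fin m → Fin n → ℂ) (g : MvPolynomial (Fin n) ℂ) : Prop :=
  ∀ i (t : ℂ), eval (fun k => t * y i k) g = 0

/-- The ideal generated by the polynomials `F j` with `j < i`. -/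
noncomputable def spanBelow {n r : ℕ} (F : Fin r → MvPolynomial (Fin n) ℂ) (i : ℕ) :
    Ideal (MvPolynomial (Fin n) ℂ) := Ideal.span {h | ∃ j : Fin r, j.val < i ∧ h = F j}

/-- The set of points of `P^{n-1}` with coordinate vectors `y i` is a complete intersection:
its homogeneous ideal is generated by a regular sequence of `n - 1` forms. -/
def IsCompleteIntersection {n m : ℕ} (y : Fin m → Fin n → ℂ) : Prop :=
  ∃ F : Fin (n - 1) → MvPolynomial (Fin n) ℂ,
    (∀ i, ∃ d, (F i).IsHomogeneous d) ∧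
    (∀ (i : Fin (n - 1)) (g : MvPolynomial (Fin n) ℂ),
      F i * g ∈ spanBelow F i.val → g ∈ spanBelow F i.val) ∧
    1 ∉ spanBelow F (n - 1) ∧
    ∀ g, g ∈ spanBelow F (n - 1) ↔ Vanishes y g

/-- The set of points is geproci: for a general point `p` (that is, for all `p` outside the zero
set of some nonzero form), the projection of the set from `p` to the hyperplane `x_0 = 0` is a
complete intersection. -/
def IsGeproci {n m : ℕ} (v : Fin m → Fin (n + 1) → ℂ) : Prop :=
  ∃ g : MvPolynomial (Fin (n + 1)) ℂ, g ≠ 0 ∧ (∃ d, g.IsHomogeneous d) ∧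
    ∀ p : Fin (n + 1) → ℂ, eval p g ≠ 0 →
      p 0 ≠ 0 ∧ (∀ i, proj p (v i) ≠ 0) ∧ IsCompleteIntersection (fun i => proj p (v i))

/-- The set of points lies in a hyperplane. -/
def Degenerate {n m : ℕ} (v : Fin m → Fin (n + 1) → ℂ) : Prop :=
  ∃ f : Fin (n + 1) → ℂ, f ≠ 0 ∧ ∀ i, ∑ k, f k * v i k = 0

/-- `L` is a line of `P^n` (as the set of coordinate vectors of its points, with the zero
vector). -/
def IsLine {n : ℕ} (L : Set (Fin (n + 1) → ℂ)) : Prop :=
  ∃ u v : Fin (n + 1) → ℂ, (∀ a b : ℂ, (∀ k, a * u k + b * v k = 0) → a = 0 ∧ b = 0) ∧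
    L = {x | ∃ a b : ℂ, ∀ k, x k = a * u k + b * v k}

/-- The two lines are skew. -/
def Skew {n : ℕ} (L M : Set (Fin (n + 1) → ℂ)) : Prop := ∀ x ∈ L, x ∈ M → x = 0

/-- The two lines meet in exactly one point. -/
def MeetOnce {n : ℕ} (L M : Set (Fin (n + 1) → ℂ)) : Prop :=
  ∃ x ∈ L, x ∈ M ∧ x ≠ 0 ∧ ∀ y ∈ L, y ∈ M → ∃ c : ℂ, ∀ k, y k = c * x k

/-- The set of points is a grid: there are `a` pairwise skew lines `L i` and `b` pairwise skew
lines `M j` (with `a ≤ b`) such that `L i` and `M j` always meet in exactly one point, and the set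
consists of these intersection points. -/
def IsGrid {n m : ℕ} (v : Fin m → Fin (n + 1) → ℂ) : Prop :=
  ∃ (a b : ℕ) (L : Fin a → Set (Fin (n + 1) → ℂ)) (M : Fin b → Set (Fin (n + 1) → ℂ)),
    a ≤ b ∧ (∀ i, IsLine (L i)) ∧ (∀ j, IsLine (M j)) ∧
    (∀ i i', i ≠ i' → Skew (L i) (L i')) ∧ (∀ j j', j ≠ j' → Skew (M j) (M j')) ∧
    (∀ i j, MeetOnce (L i) (M j)) ∧
    (∀ k, ∃ i j, v k ∈ L i ∧ v k ∈ M j) ∧ (∀ i j, ∃ k, v k ∈ L i ∧ v k ∈ M j)

/-- Non-trivial geproci sets. -/
def NontrivialGeproci {n m : ℕ} (v : Fin m → Fin (n + 1) → ℂ) : Prop :=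
  IsConfig v ∧ IsGeproci v ∧ ¬ Degenerate v ∧ ¬ IsGrid v

/-- The vectors `v i` with `i ∈ I` are linearly independent. -/
def Indep {n m : ℕ} (v : Fin m → Fin (n + 1) → ℂ) (I : Set (Fin m)) : Prop :=
  ∀ c : Fin m → ℂ, (∀ i, i ∉ I → c i = 0) → (∀ k, ∑ i, c i * v i k = 0) → ∀ i, c i = 0

/-- The matroids are isomorphic: some bijection preserves the independence of subsets. -/
def SameMatroid {n m : ℕ} (v v' : Fin m → Fin (n + 1) → ℂ) : Prop :=
  ∃ e : Equiv.Perm (Fin m), ∀ I, Indep v I ↔ Indep (fun i => v' (e i)) I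

/-- The two sets of points are projectively equivalent. -/
def ProjEquiv {n m : ℕ} (v v' : Fin m → Fin (n + 1) → ℂ) : Prop :=
  ∃ (g : Matrix (Fin (n + 1)) (Fin (n + 1)) ℂ) (e : Equiv.Perm (Fin m)) (c : Fin m → ℂ),
    g.det ≠ 0 ∧ (∀ i, c i ≠ 0) ∧ ∀ i k, ∑ l, g k l * v i l = c i * v' (e i) k

/-- The assertion of Q1: non-trivial geproci sets in the same `P^n`, `n ≥ 3`, with isomorphic
matroids (and so with the same number `m` of points) are projectively equivalent. -/
def MatroidDeterminesGeproci : Prop :=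
  ∀ n m : ℕ, 3 ≤ n → ∀ v v' : Fin m → Fin (n + 1) → ℂ,
    NontrivialGeproci v → NontrivialGeproci v' → SameMatroid v v' → ProjEquiv v v'

end Pool.Agent.H9.Geproci
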