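import Pool.Agent.H9.Geproci.Quadric

/-!
# Matroids and projective equivalence
-/

namespace Pool.Agent.H9.Geproci

/-- Four vectors in a plane with cross ratio `κ`. -/
def CR (v1 v2 v3 v4 : Fin 4 → ℂ) (κ : ℂ) : Prop :=
  Ind v1 v2 ∧ ∃ a b c d : ℂ, v3 = a • v1 + b • v2 ∧ v4 = c • v1 + d • v2 ∧ b ≠ 0 ∧ c ≠ 0 ∧
    a * d = κ * (b * c)

theorem CR_unique (v1 v2 v3 v4 : Fin 4 → ℂ) (κ κ' : ℂ) (h : CR v1 v2 v3 v4 κ)
    (h' : CR v1 v2 v3 v4 κ') : κ = κ' := by
  obtain ⟨hi, a, b, c, d, h3, h4, hb, hc, hk⟩ := h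
  obtain ⟨-, a', b', c', d', h3', h4', hb', hc', hk'⟩ := h'
  have e1 := hi (a - a') (b - b') (by
    have : (a • v1 + b • v2) - (a' • v1 + b' • v2) = 0 := by rw [← h3, ← h3', sub_self]
    rw [← this, sub_smul, sub_smul]
    abel)
  have e2 := hi (c - c') (d - d') (by
    have : (c • v1 + d • v2) - (c' • v1 + d' • v2) = 0 := by rw [← h4, ← h4', sub_self]
    rw [← this, sub_smul, sub_smul]
    abel)
  have ea : a' = a := (sub_eq_zero.1 e1.1).symm
  have eb : b' = b := (sub_eq_zero.1 e1.2).symm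
  have ec : c' = c := (sub_eq_zero.1 e2.1).symm
  have ed : d' = d := (sub_eq_zero.1 e2.2).symm
  rw [ea, eb, ec, ed, hk] at hk'
  exact mul_right_cancel₀ (mul_ne_zero hb hc) hk'

theorem CR_map (g : (Fin 4 → ℂ) →ₗ[ℂ] (Fin 4 → ℂ)) (hginj : ∀ x, g x = 0 → x = 0) (v u : Fin 4 → (Fin 4 → ℂ))
    (s : Fin 4 → ℂ) (hs : ∀ i, s i ≠ 0) (hg : ∀ i, g (v i) = s i • u i) (κ : ℂ)
    (h : CR (v 0) (v 1) (v 2) (v 3) κ) : CR (u 0) (u 1) (u 2) (u 3) κ := by
  obtain ⟨hi, a, b, c, d, h3, h4, hb, hc, hk⟩ := h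
  have hu : ∀ i, u i = (s i)⁻¹ • g (v i) := by
    intro i
    rw [hg, smul_smul, inv_mul_cancel₀ (hs i), one_smul]
  refine ⟨?_, s 0 * a * (s 2)⁻¹, s 1 * b * (s 2)⁻¹, s 0 * c * (s 3)⁻¹, s 1 * d * (s 3)⁻¹,
    ?_, ?_, ?_, ?_, ?_⟩
  · intro x y hxy
    rw [hu 0, hu 1, smul_smul, smul_smul, ← map_smul, ← map_smul, ← map_add] at hxy
    have := hi _ _ (hginj _ hxy)
    constructor
    · rcases mul_eq_zero.1 this.1 with h | h
      · exact h
      · exact absurd h (inv_ne_zero (hs 0))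
    · rcases mul_eq_zero.1 this.2 with h | h
      · exact h
      · exact absurd h (inv_ne_zero (hs 1))
  · rw [hu 2, h3, map_add, map_smul, map_smul, hg 0, hg 1, smul_add, smul_smul, smul_smul,
      smul_smul, smul_smul]
    congr 2 <;> ring
  · rw [hu 3, h4, map_add, map_smul, map_smul, hg 0, hg 1, smul_add, smul_smul, smul_smul,
      smul_smul, smul_smul]
    congr 2 <;> ring
  · exact mul_ne_zero (mul_ne_zero (hs 1) hb) (inv_ne_zero (hs 2))
  · exact mul_ne_zero (mul_ne_zero (hs 0) hc) (inv_ne_zero (hs 3))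
  · linear_combination (s 0 * (s 2)⁻¹ * s 1 * (s 3)⁻¹) * hk

/-- The cross ratio of four points on the first line. -/
noncomputable def kk (w lam : ℂ) : ℂ := w ^ 2 * (lam - 1) * (w - lam)⁻¹

theorem CR_vec (w lam : ℂ) (hw : w ^ 2 + w + 1 = 0) (hl : lam ≠ w) :
    CR (vec w lam (0, 0)) (vec w lam (0, 1)) (vec w lam (0, 2)) (vec w lam (0, 3))
      (kk w lam) := by
  have hw0 : w ≠ 0 := by
    rintro rfl
    norm_num at hw
  have hw1 : w - 1 ≠ 0 := by
    intro h
    have : w = 1 := sub_eq_zero.1 h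
    rw [this] at hw
    norm_num at hw
  have hwl : w - lam ≠ 0 := sub_ne_zero.2 hl.symm
  have hw3 : w ^ 3 = 1 := by linear_combination (w - 1) * hw
  refine ⟨?_, -w, -w ^ 2, (w - lam) * (w - 1)⁻¹, (lam - 1) * (w - 1)⁻¹, ?_, ?_, ?_, ?_, ?_⟩
  · intro a b h
    have h0 := congrFun h 0
    have h2 := congrFun h 2
    simp only [vec, sv, a1, b1, Pi.add_apply, Pi.smul_apply, smul_eq_mul, Pi.zero_apply,
      Matrix.cons_val_zero, Matrix.cons_val_one, Matrix.cons_val] at h0 h2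
    have hb : b = 0 := by
      have : (w - 1) * b = 0 := by linear_combination h2 - h0
      rcases mul_eq_zero.1 this with h | h
      · exact absurd h hw1
      · exact h
    exact ⟨by linear_combination h0 - hb, hb⟩
  · funext i
    fin_cases i
    · simp [vec, sv, a1, a2, b1, b2]
      linear_combination hw
    · simp [vec, sv, a1, a2, b1, b2]
    · simp [vec, sv, a1, a2, b1, b2]
      linear_combination hw3 - hw3 + hw + (w - 1) * hw
    · simp [vec, sv, a1, a2, b1, b2]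
  · have hi : (w - 1) * (w - 1)⁻¹ = 1 := mul_inv_cancel₀ hw1
    funext i
    fin_cases i
    · simp [vec, sv, a1, a2, b1, b2]
      linear_combination -hi
    · simp [vec, sv, a1, a2, b1, b2]
    · simp [vec, sv, a1, a2, b1, b2]
      linear_combination (-lam) * hi
    · simp [vec, sv, a1, a2, b1, b2]
  · simpa using hw0
  · exact mul_ne_zero hwl (inv_ne_zero hw1)
  · have hi : (w - lam) * (w - lam)⁻¹ = 1 := mul_inv_cancel₀ hwl
    unfold kk
    linear_combination (w ^ 4 * (lam - 1) * (w - 1)⁻¹) * hi + (w * (lam - 1) * (w - 1)⁻¹) * hw3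

theorem kk_inj (w lam lam' : ℂ) (hw : w ^ 2 + w + 1 = 0) (hl : lam ≠ w) (hl' : lam' ≠ w)
    (h : kk w lam = kk w lam') : lam = lam' := by
  have hw0 : w ≠ 0 := by
    rintro rfl
    norm_num at hw
  have hw1 : w - 1 ≠ 0 := by
    intro h
    have : w = 1 := sub_eq_zero.1 h
    rw [this] at hw
    norm_num at hw
  have hwl : w - lam ≠ 0 := sub_ne_zero.2 hl.symm
  have hwl' : w - lam' ≠ 0 := sub_ne_zero.2 hl'.symm
  unfold kk at h
  field_simp at h
  have : (w - 1) * (lam - lam') = 0 := by linear_combination h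
  rcases mul_eq_zero.1 this with h8 | h8
  · exact absurd h8 hw1
  · exact sub_eq_zero.1 h8

/-- admissible parameters -/
def Adm (lam : ℂ) : Prop := lam ≠ 0 ∧ lam ^ 3 ≠ 1

theorem Adm.ne {w lam : ℂ} (hw : w ^ 2 + w + 1 = 0) (h : Adm lam) : lam ≠ w := by
  rintro rfl
  apply h.2
  linear_combination (lam - 1) * hw

theorem equiv_finite (w lam0 : ℂ) (hw : w ^ 2 + w + 1 = 0) :
    {lam : ℂ | Adm lam ∧ ProjEquiv (ZZ w lam) (ZZ w lam0)}.Finite := by
  have key : ∀ lam ∈ {lam : ℂ | Adm lam ∧ ProjEquiv (ZZ w lam) (ZZ w lam0)},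
      ∃ τ : Fin 4 → Idx, CR (vec w lam0 (τ 0)) (vec w lam0 (τ 1)) (vec w lam0 (τ 2))
        (vec w lam0 (τ 3)) (kk w lam) := by
    rintro lam ⟨hadm, g, e, c, hdet, hc, hg⟩
    have hinj : ∀ x, g.mulVecLin x = 0 → x = 0 := by
      intro x hx
      have h1 : g.mulVec x = 0 := hx
      exact Matrix.eq_zero_of_mulVec_eq_zero hdet h1
    have h1 : ∀ i : Idx, g.mulVecLin (vec w lam i) = c (sg.symm i) •
        vec w lam0 (sg (e (sg.symm i))) := by
      intro i
      funext k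
      have h2 := hg (sg.symm i) k
      unfold ZZ at h2
      rw [Equiv.apply_symm_apply] at h2
      exact h2
    refine ⟨fun k => sg (e (sg.symm (![(0, 0), (0, 1), (0, 2), (0, 3)] k))), ?_⟩
    have hcr := CR_vec w lam hw (hadm.ne hw)
    exact CR_map g.mulVecLin hinj (fun k => vec w lam (![(0, 0), (0, 1), (0, 2), (0, 3)] k))
      (fun k => vec w lam0 (sg (e (sg.symm (![(0, 0), (0, 1), (0, 2), (0, 3)] k)))))
      (fun k => c (sg.symm (![(0, 0), (0, 1), (0, 2), (0, 3)] k))) (fun k => hc _)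
      (fun k => h1 _) (kk w lam) hcr
  choose! τ hτ using key
  apply Set.Finite.of_injOn (f := τ) (t := Set.univ) (fun _ _ => Set.mem_univ _) _
    Set.finite_univ
  intro lam h lam' h' heq
  have e1 := hτ lam h
  have e2 := hτ lam' h'
  rw [heq] at e1
  exact kk_inj w lam lam' hw (h.1.ne hw) (h'.1.ne hw) (CR_unique _ _ _ _ _ _ e1 e2)

theorem vec_inj (w lam : ℂ) (hw : w ^ 2 + w + 1 = 0) (h : Adm lam) (i i' : Idx) (c : ℂ)
    (hc : ∀ k, vec w lam i k = c * vec w lam i' k) : i = i' := by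
  obtain ⟨j, k⟩ := i
  obtain ⟨j', k'⟩ := i'
  have c0 := hc 0
  have c1 := hc 1
  have c2 := hc 2
  have c3 := hc 3
  simp only [vec, Matrix.cons_val_zero, Matrix.cons_val_one,
    Matrix.cons_val] at c0 c1 c2 c3
  have hj : j = j' := by
    by_contra hne
    apply da_ne w hw j j' hne
    unfold da
    rw [c0, c1]
    ring
  subst hj
  have hc1 : c = 1 := by
    have : (a1 j ≠ 0) ∨ (a2 w j ≠ 0) := by
      fin_cases j <;> simp [a1, a2]
    rcases this with h1 | h1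
    · exact mul_right_cancel₀ h1 (by rw [← c0, one_mul])
    · exact mul_right_cancel₀ h1 (by rw [← c1, one_mul])
  have hk : sv w lam k = sv w lam k' := by
    rw [hc1, one_mul] at c2 c3
    linear_combination (d2 j) * c2 - (d1 j) * c3 - (sv w lam k - sv w lam k') * bd w j
  rw [sv_inj w lam hw h.1 h.2 hk]

theorem config_ZZ (w lam : ℂ) (hw : w ^ 2 + w + 1 = 0) (h : Adm lam) : IsConfig (ZZ w lam) := by
  constructor
  · intro i
    exact vec_ne w lam _
  · intro i j c hc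
    exact sg.injective (vec_inj w lam hw h _ _ c hc)

theorem nontrivial_ZZ (w lam : ℂ) (hw : w ^ 2 + w + 1 = 0) (h : Adm lam) :
    NontrivialGeproci (ZZ w lam) :=
  ⟨config_ZZ w lam hw h, isGeproci_ZZ w lam hw h.1 h.2, not_degenerate w lam hw,
    not_grid w lam hw⟩

theorem adm_infinite : Infinite {lam : ℂ // Adm lam} := by
  have hfin : {lam : ℂ | ¬ Adm lam}.Finite := by
    have h1 : {lam : ℂ | ¬ Adm lam} ⊆
        {lam : ℂ | (Polynomial.X * (Polynomial.X ^ 3 - 1) : Polynomial ℂ).IsRoot lam} := by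
      intro lam hl
      by_cases h0 : lam = 0
      · simp [h0]
      · have h3 : lam ^ 3 = 1 := by
          by_contra h
          exact hl ⟨h0, h⟩
        simp [h3]
    apply Set.Finite.subset _ h1
    apply Polynomial.finite_setOfPred_isRoot
    apply mul_ne_zero Polynomial.X_ne_zero
    have := Polynomial.X_pow_sub_C_ne_zero (R := ℂ) (n := 3) (by norm_num) 1
    simpa using this
  have := hfin.infinite_compl
  have h2 : {lam : ℂ | ¬ Adm lam}ᶜ = {lam : ℂ | Adm lam} := by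
    ext x
    simp
  rw [h2] at this
  exact this.to_subtype

theorem exists_family (w : ℂ) :
    ∃ Λ : Set ℂ, Λ.Infinite ∧ (∀ lam ∈ Λ, Adm lam) ∧
      ∀ lam ∈ Λ, ∀ lam' ∈ Λ, SameMatroid (ZZ w lam) (ZZ w lam') := by
  have := adm_infinite
  let F : {lam : ℂ // Adm lam} → (Set (Fin 24) → Prop) := fun lam J => Indep (ZZ w lam.1) J
  obtain ⟨y, hy⟩ := Finite.exists_infinite_fiber F
  refine ⟨Subtype.val '' (F ⁻¹' {y}), ?_, ?_, ?_⟩
  · apply Set.Infinite.image Subtype.val_injective.injOn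
    exact Set.infinite_coe_iff.1 hy
  · rintro _ ⟨lam, _, rfl⟩
    exact lam.2
  · rintro _ ⟨lam, hl, rfl⟩ _ ⟨lam', hl', rfl⟩
    refine ⟨Equiv.refl _, ?_⟩
    intro I
    have h1 : F lam = y := hl
    have h2 : F lam' = y := hl'
    exact iff_of_eq (congrFun (h1.trans h2.symm) I)

theorem ProjEquiv.refl {n m : ℕ} (v : Fin m → Fin (n + 1) → ℂ) : ProjEquiv v v := by
  refine ⟨1, Equiv.refl _, fun _ => 1, by simp, fun _ => one_ne_zero, ?_⟩
  intro i k
  have := congrFun (Matrix.one_mulVec (v i)) k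
  simp only [one_mul, Equiv.refl_apply]
  exact this

theorem ProjEquiv.symm {n m : ℕ} {v v' : Fin m → Fin (n + 1) → ℂ} (h : ProjEquiv v v') :
    ProjEquiv v' v := by
  obtain ⟨g, e, c, hdet, hc, hg⟩ := h
  have hu : IsUnit g.det := isUnit_iff_ne_zero.2 hdet
  have hg' : ∀ i, g.mulVec (v i) = c i • v' (e i) := fun i => funext (hg i)
  refine ⟨g⁻¹, e.symm, fun j => (c (e.symm j))⁻¹, ?_, fun j => inv_ne_zero (hc _), ?_⟩
  · rw [Matrix.det_nonsing_inv]
    exact (hu.ringInverse).ne_zero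
  · intro j k
    have h1 := hg' (e.symm j)
    rw [Equiv.apply_symm_apply] at h1
    have h2 : g⁻¹.mulVec (v' j) = (c (e.symm j))⁻¹ • v (e.symm j) := by
      have h3 : v' j = (c (e.symm j))⁻¹ • g.mulVec (v (e.symm j)) := by
        rw [h1, smul_smul, inv_mul_cancel₀ (hc _), one_smul]
      rw [h3, Matrix.mulVec_smul, Matrix.mulVec_mulVec, Matrix.nonsing_inv_mul _ hu,
        Matrix.one_mulVec]
    exact congrFun h2 k

theorem ProjEquiv.trans {n m : ℕ} {v v' v'' : Fin m → Fin (n + 1) → ℂ} (h : ProjEquiv v v')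
    (h' : ProjEquiv v' v'') : ProjEquiv v v'' := by
  obtain ⟨g, e, c, hdet, hc, hg⟩ := h
  obtain ⟨g', e', c', hdet', hc', hg'⟩ := h'
  have h1 : ∀ i, g.mulVec (v i) = c i • v' (e i) := fun i => funext (hg i)
  have h2 : ∀ i, g'.mulVec (v' i) = c' i • v'' (e' i) := fun i => funext (hg' i)
  refine ⟨g' * g, e.trans e', fun i => c i * c' (e i), ?_, fun i => mul_ne_zero (hc _) (hc' _), ?_⟩
  · rw [Matrix.det_mul]
    exact mul_ne_zero hdet' hdet
  · intro i k
    have h3 : (g' * g).mulVec (v i) = (c i * c' (e i)) • v'' (e' (e i)) := by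
      rw [← Matrix.mulVec_mulVec, h1, Matrix.mulVec_smul, h2, smul_smul]
    exact congrFun h3 k

theorem exists_w : ∃ w : ℂ, w ^ 2 + w + 1 = 0 := by
  obtain ⟨s, hs⟩ := IsAlgClosed.exists_pow_nat_eq (-3 : ℂ) (n := 2) (by norm_num)
  refine ⟨(-1 + s) / 2, ?_⟩
  linear_combination hs / 4

theorem main : ∃ 𝓕 : Set (Fin 24 → Fin (3 + 1) → ℂ), 𝓕.Infinite ∧
    (∀ v ∈ 𝓕, NontrivialGeproci v) ∧
    (∀ v ∈ 𝓕, ∀ v' ∈ 𝓕, SameMatroid v v') ∧
    (∀ v ∈ 𝓕, ∀ v' ∈ 𝓕, ProjEquiv v v' → v = v') := by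
  obtain ⟨w, hw⟩ := exists_w
  obtain ⟨Λ, hΛ, hadm, hmat⟩ := exists_family w
  have : Infinite Λ := hΛ.to_subtype
  let r : Setoid Λ := ⟨fun a b => ProjEquiv (ZZ w a.1) (ZZ w b.1),
    ⟨fun a => ProjEquiv.refl _, fun h => h.symm, fun h h' => h.trans h'⟩⟩
  have hq : Infinite (Quotient r) := by
    by_contra hfin
    rw [not_infinite_iff_finite] at hfin
    obtain ⟨y, hy⟩ := Finite.exists_infinite_fiber (fun a : Λ => (Quotient.mk r a))
    have h1 : (Subtype.val '' ((fun a : Λ => (Quotient.mk r a)) ⁻¹' {y})).Infinite :=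
      Set.Infinite.image Subtype.val_injective.injOn (Set.infinite_coe_iff.1 hy)
    apply h1
    apply (equiv_finite w y.out.1 hw).subset
    rintro _ ⟨a, ha, rfl⟩
    refine ⟨hadm _ a.2, ?_⟩
    have h2 : Quotient.mk r a = Quotient.mk r y.out := by
      rw [Quotient.out_eq]
      exact ha
    exact Quotient.exact h2
  refine ⟨Set.range (fun q : Quotient r => ZZ w q.out.1), ?_, ?_, ?_, ?_⟩
  · apply Set.infinite_range_of_injective
    intro q q' hqq
    have h2 : r q.out q'.out := by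
      change ProjEquiv (ZZ w q.out.1) (ZZ w q'.out.1)
      rw [show ZZ w q.out.1 = ZZ w q'.out.1 from hqq]
      exact ProjEquiv.refl _
    rw [← Quotient.out_eq q, ← Quotient.out_eq q']
    exact Quotient.sound h2
  · rintro _ ⟨q, rfl⟩
    exact nontrivial_ZZ w _ hw (hadm _ q.out.2)
  · rintro _ ⟨q, rfl⟩ _ ⟨q', rfl⟩
    exact hmat _ q.out.2 _ q'.out.2
  · rintro _ ⟨q, rfl⟩ _ ⟨q', rfl⟩ h
    have h2 : Quotient.mk r q.out = Quotient.mk r q'.out := Quotient.sound h
    rw [Quotient.out_eq, Quotient.out_eq] at h2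
    dsimp only
    rw [h2]

theorem not_determined : ¬ MatroidDeterminesGeproci := by
  intro h
  obtain ⟨F, hinf, h1, h2, h3⟩ := main
  obtain ⟨v, hv, v', hv', hne⟩ := hinf.nontrivial
  exact hne (h3 v hv v' hv' (h 3 24 le_rfl v v' (h1 v hv) (h1 v' hv') (h2 v hv v' hv')))

end Pool.Agent.H9.Geproci
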