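import Pool.Agent.H9.Geproci.Cubic

/-!
# The projected lines
-/

namespace Pool.Agent.H9.Geproci

open MvPolynomial

/-- projection of the first spanning vector -/
def al (w : ℂ) (p : Fin 4 → ℂ) (j : Fin 4) : Fin 3 → ℂ :=
  ![p 0 * a2 w j - a1 j * p 1, -(a1 j * p 2), -(a1 j * p 3)]

/-- projection of the second spanning vector -/
def be (w : ℂ) (p : Fin 4 → ℂ) (j : Fin 4) : Fin 3 → ℂ :=
  ![0, p 0 * b1 j, p 0 * b2 w j]

/-- the number `A_j` -/
def Aj (w : ℂ) (p : Fin 4 → ℂ) (j : Fin 4) : ℂ := p 0 * a2 w j - a1 j * p 1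

/-- the number `B_j` -/
def Bj (w : ℂ) (p : Fin 4 → ℂ) (j : Fin 4) : ℂ := b1 j * p 3 - b2 w j * p 2

/-- the linear form of the projected line -/
noncomputable def ell (w : ℂ) (p : Fin 4 → ℂ) (j : Fin 4) : MvPolynomial (Fin 3) ℂ :=
  C (a1 j * Bj w p j) * X 0 + C (Aj w p j) * (C (b1 j) * X 2 - C (b2 w j) * X 1)

/-- coordinate -/
noncomputable def SS (w : ℂ) (p : Fin 4 → ℂ) (j : Fin 4) : MvPolynomial (Fin 3) ℂ :=
  C (Aj w p j)⁻¹ * X 0

/-- coordinate -/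
noncomputable def TT (w : ℂ) (p : Fin 4 → ℂ) (j : Fin 4) : MvPolynomial (Fin 3) ℂ :=
  C (p 0)⁻¹ * ((X 1 + C (a1 j * p 2) * SS w p j) * C (d2 j)
    - (X 2 + C (a1 j * p 3) * SS w p j) * C (d1 j))

/-- complement -/
noncomputable def ga (w : ℂ) (p : Fin 4 → ℂ) (j : Fin 4) : Fin 3 → ℂ :=
  ![0, (Aj w p j)⁻¹ * d1 j, (Aj w p j)⁻¹ * d2 j]

theorem hX (w : ℂ) (p : Fin 4 → ℂ) (j : Fin 4) (hp : p 0 ≠ 0) (hA : Aj w p j ≠ 0) (i : Fin 3) :
    X i = C (al w p j i) * SS w p j + C (be w p j i) * TT w p j + C (ga w p j i) * ell w p j := by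
  have hc1 : (C (Aj w p j) : MvPolynomial (Fin 3) ℂ) * C (Aj w p j)⁻¹ = 1 := by
    rw [← C_mul, mul_inv_cancel₀ hA, C_1]
  have hc2 : (C (p 0) : MvPolynomial (Fin 3) ℂ) * C (p 0)⁻¹ = 1 := by
    rw [← C_mul, mul_inv_cancel₀ hp, C_1]
  have hd : (C (b1 j) : MvPolynomial (Fin 3) ℂ) * C (d2 j) - C (b2 w j) * C (d1 j) = 1 := by
    rw [← C_mul, ← C_mul, ← C_sub, bd, C_1]
  have hl : ell w p j * C (Aj w p j)⁻¹ = C (b1 j) * (X 2 + C (a1 j * p 3) * SS w p j)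
      - C (b2 w j) * (X 1 + C (a1 j * p 2) * SS w p j) := by
    unfold ell SS Bj
    simp only [C_mul, C_sub]
    linear_combination (C (b1 j) * X 2 - C (b2 w j) * X 1) * hc1
  fin_cases i
  · have e1 : al w p j 0 = Aj w p j := rfl
    have e2 : be w p j 0 = 0 := rfl
    have e3 : ga w p j 0 = 0 := rfl
    simp only [Fin.zero_eta, e1, e2, e3, map_zero]
    unfold SS
    linear_combination (-X 0) * hc1
  · have e1 : al w p j 1 = -(a1 j * p 2) := rfl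
    have e2 : be w p j 1 = p 0 * b1 j := rfl
    have e3 : ga w p j 1 = (Aj w p j)⁻¹ * d1 j := rfl
    simp only [Fin.mk_one, e1, e2, e3]
    unfold TT
    rw [C_mul (a := p 0), C_mul (a := (Aj w p j)⁻¹), C_neg]
    linear_combination (-C (d1 j)) * hl - (X 1 + C (a1 j * p 2) * SS w p j) * hd
      - C (b1 j) * ((X 1 + C (a1 j * p 2) * SS w p j) * C (d2 j)
    - (X 2 + C (a1 j * p 3) * SS w p j) * C (d1 j)) * hc2
  · have e1 : al w p j 2 = -(a1 j * p 3) := rfl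
    have e2 : be w p j 2 = p 0 * b2 w j := rfl
    have e3 : ga w p j 2 = (Aj w p j)⁻¹ * d2 j := rfl
    simp only [Fin.reduceFinMk, e1, e2, e3]
    unfold TT
    rw [C_mul (a := p 0), C_mul (a := (Aj w p j)⁻¹), C_neg]
    linear_combination (-C (d2 j)) * hl - (X 2 + C (a1 j * p 3) * SS w p j) * hd
      - C (b2 w j) * ((X 1 + C (a1 j * p 2) * SS w p j) * C (d2 j)
    - (X 2 + C (a1 j * p 3) * SS w p j) * C (d1 j)) * hc2

/-- the six parameters -/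
def sv (w lam : ℂ) : Fin 6 → ℂ := ![1, w, w ^ 2, lam, lam * w, lam * w ^ 2]

/-- the vectors in the plane -/
def yv (w lam : ℂ) (p : Fin 4 → ℂ) (j : Fin 4) (k : Fin 6) : Fin 3 → ℂ :=
  fun i => al w p j i + sv w lam k * be w p j i

/-- the cubic form -/
noncomputable def cub (w c : ℂ) (p : Fin 4 → ℂ) : MvPolynomial (Fin 3) ℂ :=
  Fc (C w) (C c) (fun i => C (p i)) ![0, X 0, X 1, X 2]

/-- the sextic form -/
noncomputable def sext (w lam : ℂ) (p : Fin 4 → ℂ) : MvPolynomial (Fin 3) ℂ :=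
  cub w 1 p * cub w (lam ^ 3) p

/-- the constant -/
def kap (w c : ℂ) (p : Fin 4 → ℂ) (j : Fin 4) : ℂ :=
  c * (a1 j * p 1 - a2 w j * p 0) ^ 3 - (b1 j * p 3 - b2 w j * p 2) ^ 3

theorem rho_cub (w c : ℂ) (hw : w ^ 2 + w + 1 = 0) (p : Fin 4 → ℂ) (j : Fin 4) :
    rho (al w p j) (be w p j) (cub w c p)
      = C (p 0) ^ 3 * (C c * X 0 ^ 3 - X 1 ^ 3) * C (kap w c p j) := by
  have h := ident w c hw p j (C : ℂ →+* MvPolynomial (Fin 2) ℂ) (X 0) (X 1)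
  unfold cub
  have h2 := map_Fc (rho (al w p j) (be w p j) : MvPolynomial (Fin 3) ℂ →+* MvPolynomial (Fin 2) ℂ)
    (C w) (C c) (fun i => C (p i)) ![0, X 0, X 1, X 2]
  refine Eq.trans h2 (Eq.trans ?_ h)
  have hC : ∀ z : ℂ, (rho (al w p j) (be w p j) : MvPolynomial (Fin 3) ℂ →+* MvPolynomial (Fin 2) ℂ)
      (C z) = C z := by
    intro z
    exact AlgHom.commutes (rho (al w p j) (be w p j)) z
  congr 1
  · exact hC w
  · exact hC c
  · funext i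
    exact hC (p i)
  · funext i
    fin_cases i
    · simp
    · simp [rho, al, be]
    · simp [rho, al, be]
    · simp [rho, al, be]

theorem rho_sext (w lam : ℂ) (hw : w ^ 2 + w + 1 = 0) (p : Fin 4 → ℂ) (j : Fin 4) :
    rho (al w p j) (be w p j) (sext w lam p)
      = C (p 0 ^ 6 * kap w 1 p j * kap w (lam ^ 3) p j) *
        ∏ k, (X 1 - C (sv w lam k) * X 0) := by
  unfold sext
  rw [map_mul, rho_cub w 1 hw, rho_cub w _ hw]
  simp only [Fin.prod_univ_succ, sv, Matrix.cons_val_zero, Matrix.cons_val_succ,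
    Finset.univ_eq_empty, Finset.prod_empty, map_mul, map_pow, map_one]
  have hw' : (C w : MvPolynomial (Fin 2) ℂ) ^ 2 + C w + 1 = 0 := by
    rw [← C_pow, ← C_add, ← C_1, ← C_add, hw, C_0]
  have e1 : ∀ c : MvPolynomial (Fin 2) ℂ, (X 1 - c * X 0) * (X 1 - c * C w * X 0) *
      (X 1 - c * C w ^ 2 * X 0) = (X 1 ^ 3 - c ^ 3 * X 0 ^ 3) := by
    intro c
    linear_combination (c ^ 2 * X 0 ^ 2 * X 1 * C w - c * X 0 * X 1 ^ 2
      - c ^ 3 * X 0 ^ 3 * (C w - 1)) * hw'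
  have e2 := e1 1
  have e3 := e1 (C lam)
  simp only [one_mul, one_pow] at e2
  linear_combination (C (p 0)) ^ 6 * C (kap w 1 p j) * C (kap w (lam ^ 3) p j) *
    (-((X 1 ^ 3 - C lam ^ 3 * X 0 ^ 3)) * e2 - (X 1 - X 0) * (X 1 - C w * X 0) *
      (X 1 - C w ^ 2 * X 0) * e3)

end Pool.Agent.H9.Geproci
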