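import Pool.Agent.H9.Geproci.CI

/-!
# The sets of points
-/

namespace Pool.Agent.H9.Geproci

open MvPolynomial

/-- The index set of the 24 points. -/
abbrev Idx : Type := Fin 4 × Fin 6

/-- The coordinate vectors. -/
def vec (w lam : ℂ) (i : Idx) : Fin 4 → ℂ :=
  ![a1 i.1, a2 w i.1, sv w lam i.2 * b1 i.1, sv w lam i.2 * b2 w i.1]

theorem vec_ne (w lam : ℂ) (i : Idx) : vec w lam i ≠ 0 := by
  intro h
  obtain ⟨j, k⟩ := i
  have h0 := congrFun h 0
  have h1 := congrFun h 1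
  simp only [vec, Matrix.cons_val_zero, Matrix.cons_val_one, Pi.zero_apply] at h0 h1
  fin_cases j <;> simp [a1, a2] at h0 h1

theorem proj_vec (w lam : ℂ) (p : Fin 4 → ℂ) (i : Idx) :
    proj p (vec w lam i) = yv w lam p i.1 i.2 := by
  funext m
  fin_cases m <;> simp [proj, vec, yv, al, be] <;> ring

/-- The labelling of the points. -/
def sg : Fin 24 ≃ Idx := (finCongr (by norm_num : 24 = 4 * 6)).trans finProdFinEquiv.symm

/-- The set of 24 points. -/
def ZZ (w lam : ℂ) : Fin 24 → Fin (3 + 1) → ℂ := fun i => vec w lam (sg i)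

/-- nonzero forms -/
def NF (g : MvPolynomial (Fin 4) ℂ) : Prop := g ≠ 0 ∧ ∃ d, g.IsHomogeneous d

theorem NF.mul {g h : MvPolynomial (Fin 4) ℂ} (hg : NF g) (hh : NF h) : NF (g * h) := by
  obtain ⟨hg0, d, hd⟩ := hg
  obtain ⟨hh0, e, he⟩ := hh
  exact ⟨mul_ne_zero hg0 hh0, d + e, hd.mul he⟩

theorem NF.prod {ι : Type*} (s : Finset ι) (f : ι → MvPolynomial (Fin 4) ℂ)
    (h : ∀ i ∈ s, NF (f i)) : NF (∏ i ∈ s, f i) := by
  classical
  induction s using Finset.induction_on with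
  | empty => exact ⟨by simp, 0, by simpa using isHomogeneous_one (Fin 4) ℂ⟩
  | insert a s ha ih =>
    rw [Finset.prod_insert ha]
    exact NF.mul (h a (Finset.mem_insert_self a s))
      (ih (fun i hi => h i (Finset.mem_insert_of_mem hi)))

theorem NF.ofEval {g : MvPolynomial (Fin 4) ℂ} (p : Fin 4 → ℂ) (hp : eval p g ≠ 0) (d : ℕ)
    (hd : g.IsHomogeneous d) : NF g :=
  ⟨fun h => hp (by rw [h, map_zero]), d, hd⟩

/-- The polynomial of `Aj`. -/
noncomputable def gA (w : ℂ) (j : Fin 4) : MvPolynomial (Fin 4) ℂ :=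
  C (a2 w j) * X 0 - C (a1 j) * X 1

/-- The polynomial of `Bj`. -/
noncomputable def gB (w : ℂ) (j : Fin 4) : MvPolynomial (Fin 4) ℂ :=
  C (b1 j) * X 3 - C (b2 w j) * X 2

theorem hom_gA (w : ℂ) (j : Fin 4) : (gA w j).IsHomogeneous 1 :=
  (isHomogeneous_C_mul_X _ _).sub (isHomogeneous_C_mul_X _ _)

theorem hom_gB (w : ℂ) (j : Fin 4) : (gB w j).IsHomogeneous 1 :=
  (isHomogeneous_C_mul_X _ _).sub (isHomogeneous_C_mul_X _ _)

theorem eval_gA (w : ℂ) (j : Fin 4) (p : Fin 4 → ℂ) : eval p (gA w j) = Aj w p j := by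
  simp [gA, Aj]
  ring

theorem eval_gB (w : ℂ) (j : Fin 4) (p : Fin 4 → ℂ) : eval p (gB w j) = Bj w p j := by
  simp [gB, Bj]

/-- The polynomial of `kap`. -/
noncomputable def gK (w c : ℂ) (j : Fin 4) : MvPolynomial (Fin 4) ℂ :=
  C (-c) * gA w j ^ 3 - gB w j ^ 3

theorem eval_gK (w c : ℂ) (j : Fin 4) (p : Fin 4 → ℂ) : eval p (gK w c j) = kap w c p j := by
  unfold gK kap
  rw [map_sub, map_mul, map_pow, map_pow, eval_gA, eval_gB, eval_C]
  unfold Aj Bj
  ring

/-- The determinant `a1 i * a2 j - a2 i * a1 j`. -/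
def da (w : ℂ) (i j : Fin 4) : ℂ := a1 i * a2 w j - a2 w i * a1 j

/-- The determinant `b1 i * b2 j - b2 i * b1 j`. -/
def db (w : ℂ) (i j : Fin 4) : ℂ := b1 i * b2 w j - b2 w i * b1 j

theorem da_ne (w : ℂ) (hw : w ^ 2 + w + 1 = 0) (i j : Fin 4) (hij : i ≠ j) : da w i j ≠ 0 := by
  have hw0 : w ≠ 0 := by
    rintro rfl
    norm_num at hw
  have hw1 : w + 1 ≠ 0 := by
    intro h
    have : w ^ 2 = 0 := by linear_combination hw - h
    exact hw0 (pow_eq_zero_iff two_ne_zero |>.1 this)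
  have hw2 : -w - 1 ≠ 0 := fun h => hw1 (by linear_combination -h)
  have hw3 : 1 + w ≠ 0 := fun h => hw1 (by linear_combination h)
  fin_cases i <;> fin_cases j <;>
    first
    | exact absurd rfl hij
    | (simp [da, a1, a2, hw0] <;> done)
    | (simp only [da, a1, a2, Fin.zero_eta, Fin.mk_one, Fin.reduceFinMk, Matrix.cons_val_zero,
        Matrix.cons_val_one, Matrix.cons_val]
       first
       | (intro h; apply hw1; linear_combination h)
       | (intro h; apply hw1; linear_combination -h))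

/-- The polynomial of the value of the linear form `ell i` at the point `(j, k)`. -/
noncomputable def gL (w lam : ℂ) (i j : Fin 4) (k : Fin 6) : MvPolynomial (Fin 4) ℂ :=
  X 0 * (C (da w i j) * gB w i + C (sv w lam k * db w i j) * gA w i)

theorem eval_gL (w lam : ℂ) (i j : Fin 4) (k : Fin 6) (p : Fin 4 → ℂ) :
    eval p (gL w lam i j k) = eval (yv w lam p j k) (ell w p i) := by
  unfold gL
  rw [map_mul, map_add, map_mul, map_mul, eval_gA, eval_gB, eval_C, eval_C, eval_X, eval_ell]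
  simp only [yv, al, be, da, db, Aj, Bj, Matrix.cons_val_zero, Matrix.cons_val_one,
    Matrix.cons_val]
  ring

/-- The vector used for the non-vanishing. -/
def pd (i : Fin 4) : Fin 4 → ℂ := ![0, 0, d1 i, d2 i]

theorem eval_pd_gA (w : ℂ) (i : Fin 4) : eval (pd i) (gA w i) = 0 := by
  rw [eval_gA]
  simp [Aj, pd]

theorem eval_pd_gB (w : ℂ) (i : Fin 4) : eval (pd i) (gB w i) = 1 := by
  rw [eval_gB]
  simp only [Bj, pd, Matrix.cons_val]
  exact bd w i

theorem NF_X0 : NF (X 0) := ⟨X_ne_zero 0, 1, isHomogeneous_X ℂ 0⟩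

theorem NF_gL (w lam : ℂ) (hw : w ^ 2 + w + 1 = 0) (i j : Fin 4) (hij : i ≠ j) (k : Fin 6) :
    NF (gL w lam i j k) := by
  apply NF.mul NF_X0
  apply NF.ofEval (pd i) _ 1
  · have h1 := (isHomogeneous_C (Fin 4) (da w i j)).mul (hom_gB w i)
    have h2 := (isHomogeneous_C (Fin 4) (sv w lam k * db w i j)).mul (hom_gA w i)
    rw [zero_add] at h1 h2
    exact h1.add h2
  · rw [map_add, map_mul, map_mul, eval_pd_gA, eval_pd_gB, eval_C, mul_zero, add_zero, mul_one]
    exact da_ne w hw i j hij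

theorem NF_gK (w c : ℂ) (j : Fin 4) : NF (gK w c j) := by
  apply NF.ofEval (pd j) _ 3
  · have h1 := (isHomogeneous_C (Fin 4) (-c)).mul ((hom_gA w j).pow 3)
    have h2 := (hom_gB w j).pow 3
    rw [zero_add] at h1
    exact h1.sub h2
  · unfold gK
    rw [map_sub, map_mul, map_pow, map_pow, eval_pd_gA, eval_pd_gB]
    norm_num

theorem NF_gA (w : ℂ) (hw : w ^ 2 + w + 1 = 0) (j : Fin 4) : NF (gA w j) := by
  obtain ⟨i, hi⟩ : ∃ i : Fin 4, j ≠ i := ⟨j + 1, by fin_cases j <;> decide⟩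
  apply NF.ofEval ![a1 i, a2 w i, 0, 0] _ 1 (hom_gA w j)
  rw [eval_gA]
  have := da_ne w hw j i hi
  intro h
  apply this
  simp only [Aj, Matrix.cons_val_zero, Matrix.cons_val_one] at h
  unfold da
  linear_combination -h

/-- The polynomial whose zero set contains all special points of view. -/
noncomputable def gg (w lam : ℂ) : MvPolynomial (Fin 4) ℂ :=
  X 0 * ((∏ j, gA w j) * ((∏ j, gK w 1 j) * ((∏ j, gK w (lam ^ 3) j) *
    ∏ i, ∏ j, ∏ k, if i = j then 1 else gL w lam i j k)))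

theorem NF_gg (w lam : ℂ) (hw : w ^ 2 + w + 1 = 0) : NF (gg w lam) := by
  unfold gg
  refine NF.mul NF_X0 (NF.mul ?_ (NF.mul ?_ (NF.mul ?_ ?_)))
  · exact NF.prod _ _ (fun j _ => NF_gA w hw j)
  · exact NF.prod _ _ (fun j _ => NF_gK w 1 j)
  · exact NF.prod _ _ (fun j _ => NF_gK w _ j)
  · refine NF.prod _ _ (fun i _ => NF.prod _ _ (fun j _ => NF.prod _ _ (fun k _ => ?_)))
    split_ifs with h
    · exact ⟨one_ne_zero, 0, isHomogeneous_one (Fin 4) ℂ⟩
    · exact NF_gL w lam hw i j h k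

theorem good_of_gg (w lam : ℂ) (p : Fin 4 → ℂ) (h : eval p (gg w lam) ≠ 0) : Good w lam p := by
  unfold gg at h
  rw [map_mul, map_mul, map_mul, map_mul, map_prod, map_prod, map_prod, map_prod, eval_X] at h
  have h0 := left_ne_zero_of_mul h
  have h1 := left_ne_zero_of_mul (right_ne_zero_of_mul h)
  have h2 := left_ne_zero_of_mul (right_ne_zero_of_mul (right_ne_zero_of_mul h))
  have h3 := left_ne_zero_of_mul (right_ne_zero_of_mul (right_ne_zero_of_mul
    (right_ne_zero_of_mul h)))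
  have h4 := right_ne_zero_of_mul (right_ne_zero_of_mul (right_ne_zero_of_mul
    (right_ne_zero_of_mul h)))
  rw [Finset.prod_ne_zero_iff] at h1 h2 h3 h4
  constructor
  · exact h0
  · intro j
    have := h1 j (Finset.mem_univ j)
    rwa [eval_gA] at this
  · intro j
    have := h2 j (Finset.mem_univ j)
    rwa [eval_gK] at this
  · intro j
    have := h3 j (Finset.mem_univ j)
    rwa [eval_gK] at this
  · intro i j k hij
    have h5 := h4 i (Finset.mem_univ i)
    rw [map_prod, Finset.prod_ne_zero_iff] at h5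
    have h6 := h5 j (Finset.mem_univ j)
    rw [map_prod, Finset.prod_ne_zero_iff] at h6
    have h7 := h6 k (Finset.mem_univ k)
    rw [if_neg hij, eval_gL] at h7
    exact h7

theorem isGeproci_ZZ (w lam : ℂ) (hw : w ^ 2 + w + 1 = 0) (h0 : lam ≠ 0) (h1 : lam ^ 3 ≠ 1) :
    IsGeproci (ZZ w lam) := by
  obtain ⟨hg0, hgd⟩ := NF_gg w lam hw
  refine ⟨gg w lam, hg0, hgd, ?_⟩
  intro p hp
  have hG := good_of_gg w lam p hp
  refine ⟨hG.p0, ?_, ?_⟩
  · intro k
    unfold ZZ
    rw [proj_vec]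
    intro h
    generalize sg k = i at h
    have hex : ∀ i1 : Fin 4, ∃ j : Fin 4, j ≠ i1 := by decide
    obtain ⟨j, hj⟩ := hex i.1
    have h2 := hG.l j i.1 i.2 hj
    rw [h, eval_ell] at h2
    simp at h2
  · apply isCI w lam hw h0 h1 p hG _ sg
    intro i
    unfold ZZ
    rw [proj_vec]

end Pool.Agent.H9.Geproci
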