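import Pool.Agent.H9.Geproci.Points

/-!
# Grids lie on quadrics, the sets of 24 points do not
-/

namespace Pool.Agent.H9.Geproci

open Module

/-- A quadratic form in four variables. -/
def QQ (c : Fin 10 → ℂ) (x : Fin 4 → ℂ) : ℂ :=
  c 0 * x 0 ^ 2 + c 1 * x 1 ^ 2 + c 2 * x 2 ^ 2 + c 3 * x 3 ^ 2 + c 4 * (x 0 * x 1)
    + c 5 * (x 0 * x 2) + c 6 * (x 0 * x 3) + c 7 * (x 1 * x 2) + c 8 * (x 1 * x 3)
    + c 9 * (x 2 * x 3)

/-- The polar form. -/
def BB (c : Fin 10 → ℂ) (x y : Fin 4 → ℂ) : ℂ :=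
  2 * c 0 * x 0 * y 0 + 2 * c 1 * x 1 * y 1 + 2 * c 2 * x 2 * y 2 + 2 * c 3 * x 3 * y 3
    + c 4 * (x 0 * y 1 + x 1 * y 0)
    + c 5 * (x 0 * y 2 + x 2 * y 0) + c 6 * (x 0 * y 3 + x 3 * y 0)
    + c 7 * (x 1 * y 2 + x 2 * y 1) + c 8 * (x 1 * y 3 + x 3 * y 1)
    + c 9 * (x 2 * y 3 + x 3 * y 2)

theorem QQ_comb (c : Fin 10 → ℂ) (u v : Fin 4 → ℂ) (a b : ℂ) :
    QQ c (a • u + b • v) = a ^ 2 * QQ c u + a * b * BB c u v + b ^ 2 * QQ c v := by
  simp only [QQ, BB, Pi.add_apply, Pi.smul_apply, smul_eq_mul]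
  ring

theorem QQ_smul (c : Fin 10 → ℂ) (u : Fin 4 → ℂ) (a : ℂ) : QQ c (a • u) = a ^ 2 * QQ c u := by
  simp only [QQ, Pi.smul_apply, smul_eq_mul]
  ring

/-- Two vectors are independent (in elementary form). -/
def Ind (u v : Fin 4 → ℂ) : Prop := ∀ a b : ℂ, a • u + b • v = 0 → a = 0 ∧ b = 0

theorem ind_span (L : Submodule ℂ (Fin 4 → ℂ)) (hL : finrank ℂ L = 2) (u v : Fin 4 → ℂ)
    (hu : u ∈ L) (hv : v ∈ L) (huv : Ind u v) (x : Fin 4 → ℂ) (hx : x ∈ L) :
    ∃ a b : ℂ, x = a • u + b • v := by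
  have hli : LinearIndependent ℂ ![u, v] := by
    rw [LinearIndependent.pair_iff]
    exact huv
  have h1 : Submodule.span ℂ (Set.range ![u, v]) = L := by
    apply Submodule.eq_of_le_of_finrank_eq
    · rw [Submodule.span_le]
      rintro y ⟨i, rfl⟩
      fin_cases i
      · exact hu
      · exact hv
    · rw [finrank_span_eq_card hli, hL]
      rfl
  rw [← h1, Matrix.range_cons, Matrix.range_cons, Matrix.range_empty, Set.union_empty,
    Set.singleton_union, Submodule.mem_span_pair] at hx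
  obtain ⟨a, b, h⟩ := hx
  exact ⟨a, b, h.symm⟩

theorem QQ_line (c : Fin 10 → ℂ) (L : Submodule ℂ (Fin 4 → ℂ)) (hL : finrank ℂ L = 2)
    (u v x : Fin 4 → ℂ) (hu : u ∈ L) (hv : v ∈ L) (hx : x ∈ L) (huv : Ind u v) (hux : Ind u x)
    (hvx : Ind v x) (h1 : QQ c u = 0) (h2 : QQ c v = 0) (h3 : QQ c x = 0) (y : Fin 4 → ℂ)
    (hy : y ∈ L) : QQ c y = 0 := by
  obtain ⟨a, b, rfl⟩ := ind_span L hL u v hu hv huv x hx
  have ha : a ≠ 0 := by
    rintro rfl
    have := (hvx b (-1) (by simp)).2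
    norm_num at this
  have hb : b ≠ 0 := by
    rintro rfl
    have := (hux a (-1) (by simp)).2
    norm_num at this
  have hB : BB c u v = 0 := by
    rw [QQ_comb, h1, h2] at h3
    have : a * b * BB c u v = 0 := by linear_combination h3
    rcases mul_eq_zero.1 this with h | h
    · exact absurd h (mul_ne_zero ha hb)
    · exact h
  obtain ⟨a', b', rfl⟩ := ind_span L hL u v hu hv huv y hy
  rw [QQ_comb, h1, h2, hB]
  ring

theorem exists_basis (L : Submodule ℂ (Fin 4 → ℂ)) (hL : finrank ℂ L = 2) :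
    ∃ u v : Fin 4 → ℂ, u ∈ L ∧ v ∈ L ∧ Ind u v := by
  have b := finBasisOfFinrankEq ℂ L hL
  refine ⟨b 0, b 1, (b 0).2, (b 1).2, ?_⟩
  intro x y h
  have h2 : x • b 0 + y • b 1 = 0 := by
    apply Subtype.ext
    simpa using h
  have h3 := b.linearIndependent
  have h4 := Fintype.linearIndependent_iff.1 h3 ![x, y] (by simpa [Fin.sum_univ_two] using h2)
  exact ⟨h4 0, h4 1⟩

/-- The evaluation at a vector. -/
def ev (x : Fin 4 → ℂ) : (Fin 10 → ℂ) →ₗ[ℂ] ℂ where
  toFun c := QQ c x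
  map_add' a b := by
    simp only [QQ, Pi.add_apply]
    ring
  map_smul' a b := by
    simp only [QQ, Pi.smul_apply, smul_eq_mul, RingHom.id_apply]
    ring

/-- Three lines lie on a quadric. -/
theorem three_lines (L : Fin 3 → Submodule ℂ (Fin 4 → ℂ)) (hL : ∀ i, finrank ℂ (L i) = 2) :
    ∃ c : Fin 10 → ℂ, c ≠ 0 ∧ ∀ i, ∀ x ∈ L i, QQ c x = 0 := by
  choose u v hu hv huv using fun i => exists_basis (L i) (hL i)
  let E : (Fin 10 → ℂ) →ₗ[ℂ] (Fin 3 → Fin 3 → ℂ) :=
    LinearMap.pi (fun i => LinearMap.pi (fun j => ev (![u i, v i, u i + v i] j)))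
  have hE : LinearMap.ker E ≠ ⊥ := by
    apply LinearMap.ker_ne_bot_of_finrank_lt
    simp [finrank_pi_fintype]
  obtain ⟨c, hc, hc0⟩ := (Submodule.ne_bot_iff _).1 hE
  refine ⟨c, hc0, ?_⟩
  have h : ∀ i j, QQ c (![u i, v i, u i + v i] j) = 0 := by
    intro i j
    have h1 := congrFun (congrFun (LinearMap.mem_ker.1 hc) i) j
    exact h1
  intro i x hx
  have e1 := h i 0
  have e2 := h i 1
  have e3 := h i 2
  simp only [Matrix.cons_val_zero, Matrix.cons_val_one, Matrix.cons_val] at e1 e2 e3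
  apply QQ_line c (L i) (hL i) (u i) (v i) (u i + v i) (hu i) (hv i)
    ((L i).add_mem (hu i) (hv i)) (huv i) _ _ e1 e2 e3 x hx
  · intro a b h
    have := huv i (a + b) b (by rw [← h, add_smul, smul_add]; abel)
    obtain ⟨h1, h2⟩ := this
    exact ⟨by linear_combination h1 - h2, h2⟩
  · intro a b h
    have := huv i b (a + b) (by rw [← h, add_smul, smul_add]; abel)
    obtain ⟨h1, h2⟩ := this
    exact ⟨by linear_combination h2 - h1, h1⟩

theorem ind_of_inf (L L' : Submodule ℂ (Fin 4 → ℂ)) (h : L ⊓ L' = ⊥) (u v : Fin 4 → ℂ)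
    (hu : u ∈ L) (hv : v ∈ L') (hu0 : u ≠ 0) (hv0 : v ≠ 0) : Ind u v := by
  intro a b hab
  have h1 : a • u ∈ L ⊓ L' := by
    refine ⟨L.smul_mem a hu, ?_⟩
    have : a • u = (-b) • v := by
      rw [neg_smul]
      exact eq_neg_of_add_eq_zero_left hab
    rw [this]
    exact L'.smul_mem _ hv
  rw [h, Submodule.mem_bot] at h1
  have ha : a = 0 := by
    rcases smul_eq_zero.1 h1 with h | h
    · exact h
    · exact absurd h hu0
  refine ⟨ha, ?_⟩
  rw [ha, zero_smul, zero_add] at hab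
  rcases smul_eq_zero.1 hab with h | h
  · exact h
  · exact absurd h hv0

theorem line_submodule (L : Set (Fin (3 + 1) → ℂ)) (hL : IsLine L) :
    ∃ S : Submodule ℂ (Fin 4 → ℂ), finrank ℂ S = 2 ∧ (S : Set (Fin 4 → ℂ)) = L := by
  obtain ⟨u, v, huv, rfl⟩ := hL
  refine ⟨Submodule.span ℂ (Set.range ![u, v]), ?_, ?_⟩
  · have hli : LinearIndependent ℂ ![u, v] := by
      rw [LinearIndependent.pair_iff]
      intro a b h
      apply huv
      intro k
      exact congrFun h k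
    rw [finrank_span_eq_card hli]
    rfl
  · ext x
    rw [Matrix.range_cons, Matrix.range_cons, Matrix.range_empty, Set.union_empty,
      Set.singleton_union, SetLike.mem_coe, Submodule.mem_span_pair]
    constructor
    · rintro ⟨a, b, rfl⟩
      exact ⟨a, b, fun k => rfl⟩
    · rintro ⟨a, b, h⟩
      refine ⟨a, b, ?_⟩
      funext k
      exact (h k).symm

theorem grid_quadric {m : ℕ} (v : Fin m → Fin (3 + 1) → ℂ) (hm : 0 < m) (hZ : IsGrid v) :
    ∃ c : Fin 10 → ℂ, c ≠ 0 ∧ ∀ k, QQ c (v k) = 0 := by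
  obtain ⟨a, b, L0, M0, -, hL, hM, hLL, -, hLM, hz, -⟩ := hZ
  choose L hLr hLs using fun i => line_submodule (L0 i) (hL i)
  choose M hMr hMs using fun i => line_submodule (M0 i) (hM i)
  have mL : ∀ i x, x ∈ L0 i → x ∈ L i := by
    intro i x hx
    rw [← hLs i] at hx
    exact hx
  have mM : ∀ i x, x ∈ M0 i → x ∈ M i := by
    intro i x hx
    rw [← hMs i] at hx
    exact hx
  have hinf : ∀ i i', i ≠ i' → L i ⊓ L i' = ⊥ := by
    intro i i' hii
    rw [Submodule.eq_bot_iff]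
    rintro x ⟨h1, h2⟩
    apply hLL i i' hii x
    · rw [← hLs i]
      exact h1
    · rw [← hLs i']
      exact h2
  have ha : 0 < a := by
    obtain ⟨i, -⟩ := hz ⟨0, hm⟩
    exact lt_of_le_of_lt (Nat.zero_le _) i.isLt
  obtain ⟨L', h1, h2⟩ : ∃ L' : Fin 3 → Submodule ℂ (Fin 4 → ℂ), (∀ i, ∃ j, L' i = L j) ∧
      ∀ (i : Fin a) (h : i.val < 3), L' ⟨i, h⟩ = L i := by
    refine ⟨fun i => if h : i.val < a then L ⟨i, h⟩ else L ⟨0, ha⟩, ?_, ?_⟩
    · intro i
      by_cases h : i.val < a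
      · exact ⟨_, dif_pos h⟩
      · exact ⟨_, dif_neg h⟩
    · intro i h
      exact dif_pos i.isLt
  obtain ⟨c, hc0, hc⟩ := three_lines L' (by
    intro i
    obtain ⟨j, hj⟩ := h1 i
    rw [hj]
    exact hLr j)
  have hc' : ∀ (i : Fin a) (x : Fin 4 → ℂ), i.val < 3 → x ∈ L i → QQ c x = 0 := by
    intro i x hi hx
    apply hc ⟨i, hi⟩ x
    rw [h2 i hi]
    exact hx
  refine ⟨c, hc0, ?_⟩
  intro k
  obtain ⟨i, j, hi, hj⟩ := hz k
  by_cases h3 : a < 3
  · exact hc' i _ (lt_trans i.isLt h3) (mL _ _ hi)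
  · have h3' : 3 ≤ a := not_lt.1 h3
    obtain ⟨x0, l0, m0, n0, -⟩ := hLM ⟨0, by omega⟩ j
    obtain ⟨x1, l1, m1, n1, -⟩ := hLM ⟨1, by omega⟩ j
    obtain ⟨x2, l2, m2, n2, -⟩ := hLM ⟨2, by omega⟩ j
    replace l0 := mL _ _ l0
    replace l1 := mL _ _ l1
    replace l2 := mL _ _ l2
    exact QQ_line c (M j) (hMr j) x0 x1 x2 (mM _ _ m0) (mM _ _ m1) (mM _ _ m2)
      (ind_of_inf _ _ (hinf ⟨0, by omega⟩ ⟨1, by omega⟩ (by simp)) x0 x1 l0 l1 n0 n1)
      (ind_of_inf _ _ (hinf ⟨0, by omega⟩ ⟨2, by omega⟩ (by simp)) x0 x2 l0 l2 n0 n2)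
      (ind_of_inf _ _ (hinf ⟨1, by omega⟩ ⟨2, by omega⟩ (by simp)) x1 x2 l1 l2 n1 n2)
      (hc' _ _ (by simp) l0) (hc' _ _ (by simp) l1) (hc' _ _ (by simp) l2) _ (mM _ _ hj)

theorem three_values (w A B C : ℂ) (hw : w ^ 2 + w + 1 = 0) (h0 : A + B + C = 0)
    (h1 : A + B * w + C * w ^ 2 = 0) (h2 : A + B * w ^ 2 + C * (w ^ 2) ^ 2 = 0) :
    A = 0 ∧ B = 0 ∧ C = 0 := by
  have hw3 : w ^ 3 = 1 := by linear_combination (w - 1) * hw
  have hw4 : (w ^ 2) ^ 2 = w := by linear_combination w * hw3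
  rw [hw4] at h2
  have hA : A = 0 := by
    have : 3 * A = 0 := by linear_combination h0 + h1 + h2 - (B + C) * hw
    simpa using this
  have hB : B = 0 := by
    have : 3 * B = 0 := by
      linear_combination h0 + w ^ 2 * h1 + w * h2 - (A + C) * hw
        - (2 * B) * hw3 - C * (w) * hw3
    simpa using this
  refine ⟨hA, hB, ?_⟩
  rw [hA, hB] at h0
  simpa using h0

theorem not_quadric (w lam : ℂ) (hw : w ^ 2 + w + 1 = 0) (c : Fin 10 → ℂ)
    (h : ∀ i, QQ c (vec w lam i) = 0) : c = 0 := by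
  have hw0 : w ≠ 0 := by
    rintro rfl
    norm_num at hw
  have hw1 : w ≠ 1 := by
    rintro rfl
    norm_num at hw
  have a0 := h (0, 0)
  have a1' := h (0, 1)
  have a2' := h (0, 2)
  have b0 := h (1, 0)
  have b1' := h (1, 1)
  have b2' := h (1, 2)
  have e0 := h (2, 0)
  have e1 := h (2, 1)
  have e2 := h (2, 2)
  have f0 := h (3, 0)
  have f1 := h (3, 1)
  have f2 := h (3, 2)
  simp only [QQ, vec, sv, a1, a2, b1, b2, Matrix.cons_val_zero, Matrix.cons_val_one,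
    Matrix.cons_val] at a0 a1' a2' b0 b1' b2' e0 e1 e2 f0 f1 f2
  obtain ⟨r0, r5, r2⟩ := three_values w (c 0) (c 5) (c 2) hw (by linear_combination a0)
    (by linear_combination a1') (by linear_combination a2')
  obtain ⟨r1, r8, r3⟩ := three_values w (c 1) (c 8) (c 3) hw (by linear_combination b0)
    (by linear_combination b1') (by linear_combination b2')
  obtain ⟨r4, r67, r9⟩ := three_values w (c 0 + c 1 + c 4) (c 5 + c 6 + c 7 + c 8)
    (c 2 + c 3 + c 9) hw (by linear_combination e0)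
    (by linear_combination e1) (by linear_combination e2)
  have r4' : c 4 = 0 := by linear_combination r4 - r0 - r1
  have r9' : c 9 = 0 := by linear_combination r9 - r2 - r3
  have r7' : c 7 = -c 6 := by linear_combination r67 - r5 - r8
  rw [r0, r1, r2, r3, r4', r5, r7', r8, r9'] at f0
  have r6 : c 6 = 0 := by
    have h6 : w * (1 - w) * c 6 = 0 := by linear_combination f0
    rcases mul_eq_zero.1 h6 with h7 | h7
    · exfalso
      rcases mul_eq_zero.1 h7 with h8 | h8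
      · exact hw0 h8
      · exact hw1 (sub_eq_zero.1 h8).symm
    · exact h7
  have r7 : c 7 = 0 := by rw [r7', r6, neg_zero]
  funext i
  fin_cases i
  · exact r0
  · exact r1
  · exact r2
  · exact r3
  · exact r4'
  · exact r5
  · exact r6
  · exact r7
  · exact r8
  · exact r9'

theorem not_grid (w lam : ℂ) (hw : w ^ 2 + w + 1 = 0) : ¬ IsGrid (ZZ w lam) := by
  intro h
  obtain ⟨c, hc0, hc⟩ := grid_quadric _ (by norm_num) h
  apply hc0
  apply not_quadric w lam hw c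
  intro i
  have h1 := hc (sg.symm i)
  unfold ZZ at h1
  rwa [Equiv.apply_symm_apply] at h1

theorem not_degenerate (w lam : ℂ) (hw : w ^ 2 + w + 1 = 0) : ¬ Degenerate (ZZ w lam) := by
  rintro ⟨f, hf, h⟩
  have hw1 : w ≠ 1 := by
    rintro rfl
    norm_num at hw
  have hv : ∀ i : Idx, f 0 * vec w lam i 0 + f 1 * vec w lam i 1 + f 2 * vec w lam i 2
      + f 3 * vec w lam i 3 = 0 := by
    intro i
    have h1 := h (sg.symm i)
    unfold ZZ at h1
    rw [Equiv.apply_symm_apply, Fin.sum_univ_four] at h1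
    exact h1
  have a0 := hv (0, 0)
  have a1' := hv (0, 1)
  have b0 := hv (1, 0)
  have b1' := hv (1, 1)
  simp only [vec, sv, a1, a2, b1, b2, Matrix.cons_val_zero, Matrix.cons_val_one,
    Matrix.cons_val] at a0 a1' b0 b1'
  have s2 : f 2 = 0 := by
    have : (1 - w) * f 2 = 0 := by linear_combination a0 - a1'
    rcases mul_eq_zero.1 this with h8 | h8
    · exact absurd (sub_eq_zero.1 h8).symm hw1
    · exact h8
  have s3 : f 3 = 0 := by
    have : (1 - w) * f 3 = 0 := by linear_combination b0 - b1'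
    rcases mul_eq_zero.1 this with h8 | h8
    · exact absurd (sub_eq_zero.1 h8).symm hw1
    · exact h8
  have s0 : f 0 = 0 := by linear_combination a0 - s2
  have s1 : f 1 = 0 := by linear_combination b0 - s3
  apply hf
  funext i
  fin_cases i
  · exact s0
  · exact s1
  · exact s2
  · exact s3

end Pool.Agent.H9.Geproci
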